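import Pool.Agent.H80.DIC.Dic
import Pool.Agent.H60.ALT.Rate

/-!
# The dichotomy: the rate of the last coordinate alone

`FulR`: at the window all the rates of the admissible families are almost the full one. `CelR`: the
class theorem of a cell at such windows. `VoidR`: the class theorem of the other windows, with the
numbers of one family, linear with a rate below the full one, to any accuracy. `celL_rt`: the class
theorem of the cell from both, under a condition `W a` at the window (`celQH_rt`: without it).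
`celQH_three`: three kinds of windows.
-/

set_option autoImplicit false

namespace Pool.ALT

open Finset Real
open Pool.Agent.H49.Ent Pool.Agent.H32.Dense Pool.STK Pool.KA Pool.KSAT Pool.K2S Pool.PB Pool.S6C
  Pool.GEN Pool.RCD Pool.LA91 Pool.OWN68 Pool.PKG Pool.CHT Pool.GRW

/-- The parameters of a family of labels: the place of the target, the number of the exact places,
the complexity; the exponents of the gradient and of the radius, the accuracy. -/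
abbrev AltJ : Type := (ℕ × ℕ × ℕ) × (ℚ × ℚ × ℚ)

/-- **The rate at a window**, with the error `e`, for the scales `k ≥ k₀`. -/
def RtAt {n : ℕ} (i : AltJ) (S : PCl n) (c : ℕ → Fin n) (L : ℕ → ℝ → ℝ → ℝ) (g φ e : ℝ)
    (k₀ : ℕ) : Prop :=
  ∀ k ≥ k₀, AltAt S ((range i.1.1).image c) ((range i.1.2.1).image c) (c i.1.1) i.1.2.2 i.2.1
    i.2.2.1 i.2.2.2 (fun w => L i.1.1 w w) g φ e k

/-- **Full rate**: the rates of the admissible families of complexity at most `D` are at least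
`β - δ`. -/
def FulR {n : ℕ} (Adm : AltJ → PropW n) (β δ : ℝ) (D : ℕ) : PropW n :=
  fun S P θ c Pt r L T κ G g => ∀ i : AltJ, Adm i S P θ c Pt r L T κ G g → i.1.2.2 ≤ D →
    ∀ (φ e : ℝ) (k₀ : ℕ), 0 < e → RtAt i S c L g φ e k₀ → β - δ ≤ φ + e

/-- A positive number. -/
abbrev PosR : Type := {x : ℝ // 0 < x}

/-- **The class theorem of a cell at the windows of full rate**, under a condition `W a`: the slack
`δ` and the complexity `D` are chosen after the constant of the pairs. -/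
def CelR {ι L₀ : Type} (n i : ℕ) (h : ℝ) (Sl : ℕ → ℝ) (κ : ℕ → Kg) (Q : PropG n ι)
    (Adm : AltJ → PropW n) (β : ℝ) (W : L₀ → PropW n) : Prop :=
  CelL n i h Sl κ (sumQ Q (AltQ : PropG n AltI))
    (fun a (b : PosR × ℕ) => AndW (W a) (FulR Adm β b.1 b.2))

/-- **The class theorem of the windows without full rate**, under a condition `W a`: the numbers of
one admissible family are linear with a rate `φ ≤ β'`, to the accuracy `e`, chosen after the family. -/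
def VoidR {ι L₀ : Type} (n : ℕ) (h : ℝ) (Sl : ℕ → ℝ) (κ : ℕ → Kg) (Q : PropG n ι)
    (Adm : AltJ → PropW n) (β : ℝ) (W : L₀ → PropW n) : Prop :=
  ∀ al : ℝ, 0 < al → ∀ K₀ : ℝ, 0 < K₀ → ∀ S₀ : ℕ, 1 ≤ S₀ →
    ∃ (K : ℝ) (N : ℕ) (A V : ℕ → ℝ), 1 ≤ K ∧ (∀ k < N, -K ≤ V k ∧ V k ≤ A k ∧ A k ≤ K) ∧
    ∀ S₂ : ℕ, S₀ ≤ S₂ → ∀ a : L₀, ∀ β' : ℝ, β' < β → ∀ D : ℕ,
      ∃ (K' : ℝ) (N' : ℕ) (V' : ℕ → ℝ), K ≤ K' ∧
      (∀ k < N', -K' ≤ V' k ∧ V' k ≤ K') ∧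
      ∃ ε : ℝ, 0 < ε ∧ ∀ (S : PCl n) (g₀ : ℝ → ℝ) (P : List (Fin n) × Fin n → ℝ → ℝ → ℝ)
      (θ : ℝ) (P₂ : ℕ → List (Fin n) × Fin n → ℝ → ℝ → ℝ) (θ₂ Eb e₂ : ℕ → ℝ) (c : ℕ → Fin n)
      (Pt : ℝ → ℝ → ℝ) (r : ℝ → ℝ) (L T : ℕ → ℝ → ℝ → ℝ) (G : Set ℝ) (g : ℝ),
      IsClosed G → g ∈ G → (∀ l < n, HasDerivAt (fun x => L l x x) (Sl l) g) →
      W a S P θ c Pt r L T κ G g →
      ∀ i : AltJ, Adm i S P θ c Pt r L T κ G g → i.1.2.2 ≤ D → ∃ e : ℝ, 0 < e ∧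
      ∃ (p : ℕ → ι) (M : ℕ) (B₀ B₁ : ℕ → ℝ),
      (∀ j < M, B₀ j < B₁ j) ∧ ∀ k₀ : ℕ → ℕ,
      (∀ j < M, Q (p j) (k₀ j) S P θ c Pt r L T κ G g) →
      ∀ (φ : ℝ) (k₁ : ℕ), 0 ≤ φ → φ ≤ β' → RtAt i S c L g φ e k₁ →
      ∃ q₁ : ℝ, 0 < q₁ ∧ ∀ (q t : ℝ) (x : ℕ → ℝ),
      q < q₁ → (∀ j < M, x j ∈ G ∧ t + B₀ j * q ≤ x j ∧ x j ≤ t + B₁ j * q ∧
        Q (p j) (k₀ j) S P θ c Pt r L T κ G (x j)) →
      RecG S al g₀ P θ P₂ θ₂ Eb e₂ c Pt r h K₀ g L T Sl κ G S₀ N A V S₂ N' V' K' ε q t → False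

variable {m : ℕ}

/-- Two numbers of one family are equal. -/
theorem cnum_le {Q : Cp m} {S : PCl m} (hS : S.Ne) {θ θ' : ℝ} (h : CNum Q S θ)
    (h' : CNum Q S θ') : θ ≤ θ' := by
  by_contra hcon
  push Not at hcon
  obtain ⟨d, hd⟩ : ∃ d : ℝ, d = (θ - θ') / 2 := ⟨_, rfl⟩
  have hd0 : 0 < d := by rw [hd]; linarith
  obtain ⟨τ, hτ, J₀, H⟩ := (h.no d hd0).and (h'.at' d hd0)
  obtain ⟨J, hJ, F, A, hA⟩ := hS τ hτ J₀
  obtain ⟨h1, X, C, Y, h2, h3⟩ := H J hJ F A hA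
  refine h1 ⟨X, C, Y, h2, fun v => (h3 v).trans (le_of_eq ?_)⟩
  rw [hd]
  congr 1
  ring

theorem cnum_eq {Q : Cp m} {S : PCl m} (hS : S.Ne) {θ θ' : ℝ} (h : CNum Q S θ)
    (h' : CNum Q S θ') : θ = θ' := le_antisymm (cnum_le hS h h') (cnum_le hS h' h)

/-- A larger error. -/
theorem AltAt.err {S : PCl m} {I I₀ : Finset (Fin m)} {κ : Fin m} {K : ℕ} {e₀ ρ₀ π₀ : ℝ}
    {s : ℝ → ℝ} {x φ e e' : ℝ} {k : ℕ} (h : AltAt S I I₀ κ K e₀ ρ₀ π₀ s x φ e k) (he : e ≤ e') :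
    AltAt S I I₀ κ K e₀ ρ₀ π₀ s x φ e' k := fun w o h1 h2 h3 => by
  obtain ⟨θ, h4, h5⟩ := h w o h1 h2 h3
  exact ⟨θ, h4, h5.trans (mul_le_mul_of_nonneg_right he (by positivity))⟩

/-- **Two rates at a window are close.** -/
theorem alt_close {S : PCl m} (hS : S.Ne) {I I₀ : Finset (Fin m)} {κ : Fin m} {K : ℕ}
    {e₀ ρ₀ π₀ : ℝ} {s : ℝ → ℝ} {x φ φ' e e' : ℝ} {k : ℕ}
    (h : AltAt S I I₀ κ K e₀ ρ₀ π₀ s x φ e k) (h' : AltAt S I I₀ κ K e₀ ρ₀ π₀ s x φ' e' k) :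
    |φ - φ'| ≤ e + e' := by
  obtain ⟨d, hd⟩ : ∃ d : ℝ, d = (1 / 2) ^ k := ⟨_, rfl⟩
  have hd0 : 0 < d := by rw [hd]; positivity
  obtain ⟨w, hw1, hw2⟩ := exists_rat_btwn (show x - d < x - d / 2 by linarith)
  obtain ⟨o, ho1, ho2⟩ := exists_rat_btwn (show x + d / 2 < x + d by linarith)
  have hwo : w ≤ o := by
    have : (w : ℝ) ≤ o := by linarith
    exact_mod_cast this
  obtain ⟨θ, a1, a2⟩ := h w o (by rw [← hd]; linarith) hwo (by rw [← hd]; linarith)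
  obtain ⟨θ', b1, b2⟩ := h' w o (by rw [← hd]; linarith) hwo (by rw [← hd]; linarith)
  rw [← hd] at a2 b2
  rw [cnum_eq hS a1 b1] at a2
  have a3 := abs_le.1 a2
  have b3 := abs_le.1 b2
  by_contra hcon
  push Not at hcon
  have h1 : (e + e') * d < |φ - φ'| * (o - w) := by
    have h2 : |φ - φ'| * d ≤ |φ - φ'| * (o - w) :=
      mul_le_mul_of_nonneg_left (by linarith) (abs_nonneg _)
    have h3 := mul_lt_mul_of_pos_right hcon hd0
    linarith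
  rcases abs_cases (φ - φ') with ⟨h2, -⟩ | ⟨h2, -⟩
  · rw [h2] at h1
    nlinarith
  · rw [h2] at h1
    nlinarith

/-- **The labels exist** at the windows near a window with a rate. -/
theorem alt_has {S : PCl m} {I I₀ : Finset (Fin m)} {κ : Fin m} {K : ℕ} {e₀ ρ₀ π₀ : ℝ}
    {s : ℝ → ℝ} {x φ e : ℝ} {k : ℕ} (h : AltAt S I I₀ κ K e₀ ρ₀ π₀ s x φ e k) (hx : 0 < x) :
    ∃ w : ℝ, 0 < w ∧ w < x ∧ AltE S I κ K e₀ ρ₀ π₀ w := by
  have hd0 : (0 : ℝ) < (1 / 2) ^ k := by positivity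
  obtain ⟨w, hw1, hw2⟩ := exists_rat_btwn (show max 0 (x - (1 / 2) ^ k) < x from
    max_lt hx (by linarith))
  have hw3 := (le_max_left 0 (x - (1 / 2 : ℝ) ^ k)).trans_lt hw1
  have hw4 := (le_max_right 0 (x - (1 / 2 : ℝ) ^ k)).trans_lt hw1
  obtain ⟨θ, a1, -⟩ := h w w hw4.le le_rfl (by linarith)
  refine ⟨w, hw3, hw2, Bas.mono 0 (alt_att a1 1 one_pos) ?_⟩
  rintro J - F A ⟨V, z, z', G, h1, -⟩
  exact ⟨V, z, z', G, h1⟩

/-- **The windows without full rate are void.** -/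
theorem voidL_rt {ι L₀ : Type} {n : ℕ} {h : ℝ} {Sl : ℕ → ℝ} {κ : ℕ → Kg} {Q : PropG n ι}
    {Adm : AltJ → PropW n} {β : ℝ} {W : L₀ → PropW n} (hB : VoidR n h Sl κ Q Adm β W) :
    VoidL n h Sl κ (sumQ Q (AltQ : PropG n AltI))
      (fun a : L₀ × PosR × ℕ => AndW (W a.1) (NotW (FulR Adm β a.2.1 a.2.2))) := by
  classical
  intro al hal K₀ hK₀ S₀ hS₀
  obtain ⟨K, N, A, V, hK, hV, H⟩ := hB al hal K₀ hK₀ S₀ hS₀
  have l1 : K ≤ max K K₀ := le_max_left _ _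
  have l2 : K₀ ≤ max K K₀ := le_max_right _ _
  refine ⟨max K K₀, N, A, V, hK.trans l1, fun k hk => ?_, ?_⟩
  · obtain ⟨a1, a2, a3⟩ := hV k hk
    exact ⟨by linarith, a2, by linarith⟩
  rintro S₂ hS₂ ⟨a, ⟨δ, hδ⟩, D⟩
  obtain ⟨K', N', V', hKK, hV', ε, hε, H⟩ := H S₂ hS₂ a (β - δ / 2) (by linarith) D
  have l3 : K' ≤ max K' K₀ := le_max_left _ _
  have l4 : K₀ ≤ max K' K₀ := le_max_right _ _
  refine ⟨max K' K₀, N', V', max_le_max hKK le_rfl, fun k hk => ?_, ε, hε, ?_⟩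
  · obtain ⟨a1, a2⟩ := hV' k hk
    exact ⟨by linarith, by linarith⟩
  rintro S g₀ P θ P₂ θ₂ Eb e₂ c Pt r L T G g hG hg hd ⟨hW, hn⟩
  obtain ⟨j, hj, hjD, φ₀, e₀, k₀, he₀, hrt, hlt⟩ : ∃ j : AltJ, Adm j S P θ c Pt r L T κ G g ∧
      j.1.2.2 ≤ D ∧ ∃ (φ e : ℝ) (k₀ : ℕ), 0 < e ∧ RtAt j S c L g φ e k₀ ∧ φ + e < β - δ := by
    by_contra hcon
    refine hn fun j hj hjD φ e k₀ he hrt => ?_
    by_contra h1
    push Not at h1
    exact hcon ⟨j, hj, hjD, φ, e, k₀, he, hrt, h1⟩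
  obtain ⟨e, he, p, M, B₀, B₁, hBB, H⟩ := H S g₀ P θ P₂ θ₂ Eb e₂ c Pt r L T G g hG hg hd hW
    j hj hjD
  obtain ⟨e', he'0, he'1⟩ := exists_rat_btwn (show 0 < min e (δ / 2) from lt_min he (by linarith))
  have he'2 := he'1.trans_le (min_le_left _ _)
  have he'3 := he'1.trans_le (min_le_right _ _)
  refine ⟨fun k => if k = M then Sum.inr (j.1, (j.2, e')) else Sum.inl (p k), M + 1,
    fun k => if k = M then 0 else B₀ k, fun k => if k = M then 1 else B₁ k, fun k hk => ?_,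
    fun kk hkk => ?_⟩
  · show (if k = M then (0 : ℝ) else B₀ k) < if k = M then 1 else B₁ k
    rcases eq_or_ne k M with h1 | h1
    · rw [if_pos h1, if_pos h1]
      exact one_pos
    · rw [if_neg h1, if_neg h1]
      exact hBB k (by omega)
  have hQ : ∀ k < M, Q (p k) (kk k) S P θ c Pt r L T κ G g := fun k hk => by
    have h1 := hkk k (by omega)
    simp only [if_neg hk.ne] at h1
    exact h1
  have hAlt : AltQ (n := n) (j.1, (j.2, e')) (kk M) S P θ c Pt r L T κ G g := by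
    have h1 := hkk M (by omega)
    simp only [if_true] at h1
    exact h1
  -- a bad class, or a bad window
  by_cases hb : S.Ne ∧ 0 < g
  swap
  · refine ⟨1, one_pos, fun q t x _ _ R => hb ⟨R.ne, ?_⟩⟩
    have h1 := R.t0
    have h2 := (abs_le.1 R.near).2
    have h3 : K₀ * q ≤ max K' K₀ * q := mul_le_mul_of_nonneg_right l4 R.q0.le
    linarith
  obtain ⟨hne, hg0⟩ := hb
  obtain ⟨w₀, hw0, hwg, hE⟩ := alt_has (hrt k₀ le_rfl) hg0
  obtain ⟨φ, hφ, hr⟩ := hAlt.rate (by exact_mod_cast he'0) S hne (fun _ _ _ _ h => h) w₀ hw0 hwg hE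
  have hclose := alt_close hne (hrt (max k₀ (kk M)) (le_max_left _ _))
    (hr (max k₀ (kk M)) (le_max_right _ _))
  have h2 := (abs_le.1 hclose).1
  obtain ⟨q₁, hq₁, H⟩ := H kk hQ φ (kk M) hφ (by
    have e1 : ((j.1, (j.2, e')) : AltI).2.2 = e' := rfl
    rw [e1] at h2
    linarith) (fun k hk => (hr k hk).err he'2.le)
  refine ⟨q₁, hq₁, fun q t x hq hx R => H q t x hq (fun k hk => ?_) (R.mono l3 le_rfl
    (fun k hk => ⟨k, hk, rfl, rfl⟩) fun k hk => ⟨k, hk, rfl⟩)⟩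
  have h1 := hx k (by omega)
  simp only [if_neg hk.ne] at h1
  exact h1

/-- **The dichotomy of the windows** by the rate of the last coordinate alone, under `W a`. -/
theorem celL_rt {ι L₀ : Type} {n i : ℕ} {h : ℝ} {Sl : ℕ → ℝ} {κ : ℕ → Kg} {Q : PropG n ι}
    {Adm : AltJ → PropW n} {β : ℝ} {W : L₀ → PropW n} (hA : CelR n i h Sl κ Q Adm β W)
    (hB : VoidR n h Sl κ Q Adm β W) :
    CelL n i h Sl κ (sumQ Q (AltQ : PropG n AltI)) (fun a (_ : Unit) => W a) := by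
  classical
  refine celL_void (Z' := fun a : L₀ × PosR × ℕ => AndW (W a.1) (NotW (FulR Adm β a.2.1 a.2.2)))
    hA (voidL_rt hB) fun a b S P θ c Pt r L T G g hW => ?_
  by_cases h1 : FulR Adm β b.1 b.2 S P θ c Pt r L T κ G g
  · exact Or.inl ⟨hW, h1⟩
  · exact Or.inr ⟨hW, h1⟩

/-- **The dichotomy of the windows** by the rate of the last coordinate alone. -/
theorem celQH_rt {ι : Type} {n i : ℕ} {h : ℝ} {Sl : ℕ → ℝ} {κ : ℕ → Kg} {Q : PropG n ι}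
    {Adm : AltJ → PropW n} {β : ℝ} (hA : CelR n i h Sl κ Q Adm β (fun _ : Unit => TruW n))
    (hB : VoidR n h Sl κ Q Adm β (fun _ : Unit => TruW n)) :
    CelQH n i h Sl κ (sumQ Q (AltQ : PropG n AltI)) := celL_true (celL_rt hA hB)

/-- **Three kinds of windows**: `Z₀ b` for the `b` of its class theorem; without `Z₀ b` [any `b`],
full rate, and void. -/
theorem celQH_three {ι Lam : Type} {n i : ℕ} {h : ℝ} {Sl : ℕ → ℝ} {κ : ℕ → Kg} {Q : PropG n ι}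
    {Adm : AltJ → PropW n} {β : ℝ} {Z₀ : Lam → PropW n}
    (h0 : CelY n i h Sl κ (sumQ Q (AltQ : PropG n AltI)) Z₀)
    (h1 : CelR n i h Sl κ Q Adm β (fun b => NotW (Z₀ b)))
    (h2 : VoidR n h Sl κ Q Adm β (fun b => NotW (Z₀ b))) :
    CelQH n i h Sl κ (sumQ Q (AltQ : PropG n AltI)) := by
  classical
  refine celL_true (celL_or (L₀ := Unit) (W := fun _ => TruW n)
    (Z' := fun ab _ => NotW (Z₀ ab.2)) (h0.l Unit)
    ((celL_rt h1 h2).imp (fun ab : Unit × Lam => ab.2) fun _ _ _ _ _ _ _ _ _ _ _ _ h => h)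
    fun a b S P θ c Pt r L T G g _ => em _)

end Pool.ALT
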