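import Pool.Agent.H3.D2G.RecH

/-!
# Fewer windows, a smaller radius and a larger error

`RecG.mono`: the record for a part of the windows, a smaller radius and a larger error.
-/

set_option autoImplicit false

namespace Pool.PKG

open Pool.Agent.H49.Ent Pool.Agent.H32.Dense Pool.STK Pool.KA Pool.KSAT Pool.K2S Pool.PB
open Pool.GEN Pool.S6C Pool.STAT Pool.CHT Pool.GRW Pool.ONE Pool.STA
open Pool.LBT (LSys ThrOf)
open Pool.LEV (Law)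
open Pool.ALL (RateOf)

variable {m : ℕ}

theorem KgQ.mono {k : Kg} {L T : ℝ → ℝ → ℝ} {s t K K₁ q ε ε₁ : ℝ} (h : KgQ k L T s t K q ε)
    (hq : 0 ≤ q) (hK : K₁ ≤ K) (hε : ε ≤ ε₁) : KgQ k L T s t K₁ q ε₁ := by
  have h1 : K₁ * q ≤ K * q := mul_le_mul_of_nonneg_right hK hq
  have h2 : ε * q ≤ ε₁ * q := mul_le_mul_of_nonneg_right hε hq
  cases k
  · exact h
  · exact ⟨h.1, fun a w a1 a2 a3 => (h.2 a w (by linarith) a2 (by linarith)).trans (by linarith)⟩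
  · exact ⟨h.1, fun a w a1 a2 a3 => (h.2 a w (by linarith) a2 (by linarith)).trans (by linarith)⟩
  · exact ⟨h.1, fun a w a1 a2 a3 => (h.2 a w (by linarith) a2 (by linarith)).trans (by linarith)⟩
  · trivial

/-- **A part of the windows** of the record of one target, and a smaller radius. -/
theorem RecT.mono {S : PCl m} {P P₂ : List (Fin m) × Fin m → ℝ → ℝ → ℝ} {θ θ₂ : ℝ}
    {c : ℕ → Fin m} {l : ℕ} {L : ℕ → ℝ → ℝ → ℝ} {S₀ N N₁ : ℕ} {A V A₁ V₁ : ℕ → ℝ} {S₂ N' N₁' : ℕ}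
    {V' V₁' : ℕ → ℝ} {Eb e₂ K K₁ q t : ℝ}
    (h : RecT S P P₂ θ θ₂ c l L S₀ N A V S₂ N' V' Eb e₂ K q t) (hq : 0 ≤ q) (hK : K₁ ≤ K)
    (hN : ∀ k < N₁, ∃ j < N, A₁ k = A j ∧ V₁ k = V j) (hN' : ∀ k < N₁', ∃ j < N', V₁' k = V' j) :
    RecT S P P₂ θ θ₂ c l L S₀ N₁ A₁ V₁ S₂ N₁' V₁' Eb e₂ K₁ q t := by
  have h1 : K₁ * q ≤ K * q := mul_le_mul_of_nonneg_right hK hq
  refine ⟨h.thr₂, h.th₂0, h.Eb0, ?_, fun x hx => h.eθ x (hx.trans h1), fun j hj x hx => ?_,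
    fun k hk => ?_, fun k hk => ?_, fun k hk => ?_, fun k hk => ?_⟩
  · have := h.Ebe
    linarith
  · have := h.room j hj x (hx.trans h1)
    linarith
  · obtain ⟨j, hj, e1, e2⟩ := hN k hk
    rw [e1, e2]
    exact h.pt j hj
  · obtain ⟨j, hj, e1, e2⟩ := hN k hk
    rw [e1, e2]
    exact h.rat j hj
  · obtain ⟨j, hj, e1⟩ := hN' k hk
    rw [e1]
    exact h.ptc j hj
  · obtain ⟨j, hj, e1⟩ := hN' k hk
    rw [e1]
    exact h.ratc j hj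

/-- **A part of the windows** of the record, a smaller radius and a larger error. -/
theorem RecG.mono {S : PCl m} {al : ℝ} {g₀ : ℝ → ℝ} {P : List (Fin m) × Fin m → ℝ → ℝ → ℝ}
    {θ : ℝ} {P₂ : ℕ → List (Fin m) × Fin m → ℝ → ℝ → ℝ} {θ₂ Eb e₂ : ℕ → ℝ}
    {c : ℕ → Fin m} {Pt : ℝ → ℝ → ℝ} {r : ℝ → ℝ} {h K₀ g : ℝ} {L T : ℕ → ℝ → ℝ → ℝ}
    {Sl : ℕ → ℝ} {κ : ℕ → Kg} {G : Set ℝ} {S₀ N N₁ : ℕ} {A V A₁ V₁ : ℕ → ℝ} {S₂ N' N₁' : ℕ}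
    {V' V₁' : ℕ → ℝ} {K K₁ ε ε₁ q t : ℝ}
    (R : RecG S al g₀ P θ P₂ θ₂ Eb e₂ c Pt r h K₀ g L T Sl κ G S₀ N A V S₂ N' V' K ε q t)
    (hK : K₁ ≤ K) (hε : ε ≤ ε₁)
    (hN : ∀ k < N₁, ∃ j < N, A₁ k = A j ∧ V₁ k = V j) (hN' : ∀ k < N₁', ∃ j < N', V₁' k = V' j) :
    RecG S al g₀ P θ P₂ θ₂ Eb e₂ c Pt r h K₀ g L T Sl κ G S₀ N₁ A₁ V₁ S₂ N₁' V₁' K₁ ε₁ q t := by
  have hq := R.q0
  have h1 : K₁ * q ≤ K * q := mul_le_mul_of_nonneg_right hK hq.le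
  have h2 : ε * q ≤ ε₁ * q := mul_le_mul_of_nonneg_right hε hq.le
  refine ⟨R.ne, R.al0, R.g₀pos, R.clx, R.thr, R.th0, R.tgs, R.rate, R.inj, R.c0, R.law, R.lv,
    R.lawL, R.q0, ?_, ?_, R.near, ⟨fun k hk => ?_, fun k hk => ?_⟩, fun k hk => ?_, fun k hk => ?_,
    fun l hl x hx => (R.dL l hl x (hx.trans h1)).trans h2,
    fun l hl x hx => (R.dT l hl x (hx.trans h1)).trans h2, R.s0,
    fun x hx => (R.l0 x (hx.trans h1)).trans h2, fun l hl => (R.kd l hl).mono hq.le hK hε,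
    fun x y hx hy hxy => (R.row x y (hx.trans h1) (hy.trans h1) hxy).trans (by linarith),
    fun l h1 h2 => (R.tg l h1 h2).mono hq.le hK hN hN', R.tgl⟩
  · have := R.t0
    linarith
  · have := R.t1
    linarith
  · obtain ⟨j, hj, e1, e2⟩ := hN k hk
    rw [e1, e2]
    exact R.memG.1 j hj
  · obtain ⟨j, hj, e1⟩ := hN' k hk
    rw [e1]
    exact R.memG.2 j hj
  · obtain ⟨j, hj, e1, e2⟩ := hN k hk
    rw [e1, e2]
    exact R.TL j hj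
  · obtain ⟨j, hj, e1⟩ := hN' k hk
    rw [e1]
    exact R.TLc j hj

end Pool.PKG
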