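import Pool.Agent.H80.DIC.Tz
import Pool.Agent.H3.D2G.RecO
import Pool.Agent.H3.D2G.RecU

/-!
# Cases at a window, place by place

`AllQ`: the property at the window. `CasW`: at every window in `W` a class theorem `CelZ` of a place
in `I` applies, all its conditions `Z lam` hold at the window. `CasW.cel`, `CasW.leaf`, `CasW.step`,
`VoidL.cas`: the rules. `stas_of_c`: at almost every window one of the places is static.
`lCellB_of_c`, `lV0A_of_c`, `lV0B_of_c`, `lV01_of_c`: the joints. `VoidZ`, `CasV`, `void_of_c`: void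
windows.
-/

set_option autoImplicit false

namespace Pool.PKG

open MeasureTheory Set Filter Topology
open Pool.Agent.H49.Ent Pool.Agent.H32.Dense Pool.STK Pool.KA Pool.KSAT Pool.K2S Pool.PB
open Pool.GEN Pool.S6C Pool.STAT Pool.CHT Pool.GRW Pool.ONE Pool.STA
open Pool.TOP (TopS)
open Pool.LA91 (sumQ)
open Pool.STR (ThinAt SteepAt StaAt sta_of_pairs)

/-- **The property at the window**, for all its parameters. -/
def AllQ {ι : Type} {n : ℕ} (Q : PropG n ι) : PropW n :=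
  fun S P θ c Pt r L T κ G g => ∀ p : ι, ∃ k₀ : ℕ, Q p k₀ S P θ c Pt r L T κ G g

/-- A window of the class. -/
structure GdW (n : ℕ) (Sl : ℕ → ℝ) (S : PCl n) (L : ℕ → ℝ → ℝ → ℝ) (G : Set ℝ) (g : ℝ) :
    Prop where
  ne : S.Ne
  g0 : 0 < g
  g1 : g < 1
  cl : IsClosed G
  mem : g ∈ G
  der : ∀ l < n, HasDerivAt (fun x => L l x x) (Sl l) g

/-- **Cases at a window**: at every window in `W` there is a class theorem of a place in `I`, all the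
conditions of which hold at the window. -/
def CasW {ι : Type} (n : ℕ) (I : Set ℕ) (h : ℝ) (Sl : ℕ → ℝ) (κ : ℕ → Kg) (Q : PropG n ι)
    (W : PropW n) : Prop :=
  ∀ (S : PCl n) (P : List (Fin n) × Fin n → ℝ → ℝ → ℝ) (θ : ℝ) (c : ℕ → Fin n)
    (Pt : ℝ → ℝ → ℝ) (r : ℝ → ℝ) (L T : ℕ → ℝ → ℝ → ℝ) (G : Set ℝ) (g : ℝ),
    GdW n Sl S L G g → AllQ Q S P θ c Pt r L T κ G g → W S P θ c Pt r L T κ G g →
    ∃ i ∈ I, ∃ (Lm : Type) (Z : Lm → PropW n), CelZ n i h Sl κ Q Z ∧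
      ∀ lam, Z lam S P θ c Pt r L T κ G g

/-- **The class theorem of a void kind of windows** under the hypothesis `Z lam` on the class. -/
def VoidZ {ι Λ : Type} (n : ℕ) (h : ℝ) (Sl : ℕ → ℝ) (κ : ℕ → Kg) (Q : PropG n ι)
    (Z : Λ → PropW n) : Prop :=
  ∀ al : ℝ, 0 < al → ∀ K₀ : ℝ, 0 < K₀ → ∀ S₀ : ℕ, 1 ≤ S₀ →
    ∃ (K : ℝ) (N : ℕ) (A V : ℕ → ℝ), 1 ≤ K ∧ (∀ k < N, -K ≤ V k ∧ V k ≤ A k ∧ A k ≤ K) ∧
    ∀ S₂ : ℕ, S₀ ≤ S₂ → ∃ (lam : Λ) (K' : ℝ) (N' : ℕ) (V' : ℕ → ℝ), K ≤ K' ∧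
      (∀ k < N', -K' ≤ V' k ∧ V' k ≤ K') ∧
      ∃ ε : ℝ, 0 < ε ∧ ∀ (S : PCl n) (g₀ : ℝ → ℝ) (P : List (Fin n) × Fin n → ℝ → ℝ → ℝ)
      (θ : ℝ) (P₂ : ℕ → List (Fin n) × Fin n → ℝ → ℝ → ℝ) (θ₂ Eb e₂ : ℕ → ℝ) (c : ℕ → Fin n)
      (Pt : ℝ → ℝ → ℝ) (r : ℝ → ℝ) (L T : ℕ → ℝ → ℝ → ℝ) (G : Set ℝ) (g : ℝ),
      IsClosed G → g ∈ G → (∀ l < n, HasDerivAt (fun x => L l x x) (Sl l) g) →
      Z lam S P θ c Pt r L T κ G g →
      ∃ (p : ℕ → ι) (M : ℕ) (B₀ B₁ : ℕ → ℝ),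
      (∀ j < M, B₀ j < B₁ j) ∧ ∀ k₀ : ℕ → ℕ,
      (∀ j < M, Q (p j) (k₀ j) S P θ c Pt r L T κ G g) →
      ∃ q₁ : ℝ, 0 < q₁ ∧ ∀ (q t : ℝ) (x : ℕ → ℝ),
      q < q₁ → (∀ j < M, x j ∈ G ∧ t + B₀ j * q ≤ x j ∧ x j ≤ t + B₁ j * q ∧
        Q (p j) (k₀ j) S P θ c Pt r L T κ G (x j)) →
      RecG S al g₀ P θ P₂ θ₂ Eb e₂ c Pt r h K₀ g L T Sl κ G S₀ N A V S₂ N' V' K' ε q t → False

/-- **Cases at a void window**. -/
def CasV {ι : Type} (n : ℕ) (h : ℝ) (Sl : ℕ → ℝ) (κ : ℕ → Kg) (Q : PropG n ι)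
    (W : PropW n) : Prop :=
  ∀ (S : PCl n) (P : List (Fin n) × Fin n → ℝ → ℝ → ℝ) (θ : ℝ) (c : ℕ → Fin n)
    (Pt : ℝ → ℝ → ℝ) (r : ℝ → ℝ) (L T : ℕ → ℝ → ℝ → ℝ) (G : Set ℝ) (g : ℝ),
    GdW n Sl S L G g → AllQ Q S P θ c Pt r L T κ G g → W S P θ c Pt r L T κ G g →
    ∃ (Lm : Type) (Z : Lm → PropW n), VoidZ n h Sl κ Q Z ∧
      ∀ lam, Z lam S P θ c Pt r L T κ G g

section

variable {ι ι' Lm L₀ : Type} {n i : ℕ} {I : Set ℕ} {h : ℝ} {Sl : ℕ → ℝ} {κ : ℕ → Kg}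
  {Q : PropG n ι} {Q' : PropG n ι'} {W W' : PropW n}

/-! ### The property -/

theorem allQ_inl {S : PCl n} {P : List (Fin n) × Fin n → ℝ → ℝ → ℝ} {θ : ℝ} {c : ℕ → Fin n}
    {Pt : ℝ → ℝ → ℝ} {r : ℝ → ℝ} {L T : ℕ → ℝ → ℝ → ℝ} {G : Set ℝ} {g : ℝ}
    (H : AllQ (sumQ Q Q') S P θ c Pt r L T κ G g) : AllQ Q S P θ c Pt r L T κ G g :=
  fun p => H (Sum.inl p)

theorem allQ_inr {S : PCl n} {P : List (Fin n) × Fin n → ℝ → ℝ → ℝ} {θ : ℝ} {c : ℕ → Fin n}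
    {Pt : ℝ → ℝ → ℝ} {r : ℝ → ℝ} {L T : ℕ → ℝ → ℝ → ℝ} {G : Set ℝ} {g : ℝ}
    (H : AllQ (sumQ Q Q') S P θ c Pt r L T κ G g) : AllQ Q' S P θ c Pt r L T κ G g :=
  fun p => H (Sum.inr p)

/-- A class theorem with more properties at hand. -/
theorem CelZ.inl {Z : Lm → PropW n} (H : CelZ n i h Sl κ Q Z) :
    CelZ n i h Sl κ (sumQ Q Q') Z := by
  intro al hal K₀ hK₀ del hdel S₀ hS₀
  obtain ⟨K, N, A, V, h1, h2, H⟩ := H al hal K₀ hK₀ del hdel S₀ hS₀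
  refine ⟨K, N, A, V, h1, h2, fun S₂ hS₂ => ?_⟩
  obtain ⟨lam, K', N', V', h3, h4, ε, hε, H⟩ := H S₂ hS₂
  refine ⟨lam, K', N', V', h3, h4, ε, hε, fun S g₀ P θ P₂ θ₂ Eb e₂ c Pt r L T G g hG hg hd hZ => ?_⟩
  obtain ⟨p, M, B₀, B₁, hB, H⟩ := H S g₀ P θ P₂ θ₂ Eb e₂ c Pt r L T G g hG hg hd hZ
  exact ⟨fun k => Sum.inl (p k), M, B₀, B₁, hB, H⟩

theorem CelZ.inr {Z : Lm → PropW n} (H : CelZ n i h Sl κ Q' Z) :
    CelZ n i h Sl κ (sumQ Q Q') Z := by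
  intro al hal K₀ hK₀ del hdel S₀ hS₀
  obtain ⟨K, N, A, V, h1, h2, H⟩ := H al hal K₀ hK₀ del hdel S₀ hS₀
  refine ⟨K, N, A, V, h1, h2, fun S₂ hS₂ => ?_⟩
  obtain ⟨lam, K', N', V', h3, h4, ε, hε, H⟩ := H S₂ hS₂
  refine ⟨lam, K', N', V', h3, h4, ε, hε, fun S g₀ P θ P₂ θ₂ Eb e₂ c Pt r L T G g hG hg hd hZ => ?_⟩
  obtain ⟨p, M, B₀, B₁, hB, H⟩ := H S g₀ P θ P₂ θ₂ Eb e₂ c Pt r L T G g hG hg hd hZ
  exact ⟨fun k => Sum.inr (p k), M, B₀, B₁, hB, H⟩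

theorem VoidZ.inl {Z : Lm → PropW n} (H : VoidZ n h Sl κ Q Z) :
    VoidZ n h Sl κ (sumQ Q Q') Z := by
  intro al hal K₀ hK₀ S₀ hS₀
  obtain ⟨K, N, A, V, h1, h2, H⟩ := H al hal K₀ hK₀ S₀ hS₀
  refine ⟨K, N, A, V, h1, h2, fun S₂ hS₂ => ?_⟩
  obtain ⟨lam, K', N', V', h3, h4, ε, hε, H⟩ := H S₂ hS₂
  refine ⟨lam, K', N', V', h3, h4, ε, hε, fun S g₀ P θ P₂ θ₂ Eb e₂ c Pt r L T G g hG hg hd hZ => ?_⟩
  obtain ⟨p, M, B₀, B₁, hB, H⟩ := H S g₀ P θ P₂ θ₂ Eb e₂ c Pt r L T G g hG hg hd hZ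
  exact ⟨fun k => Sum.inl (p k), M, B₀, B₁, hB, H⟩

theorem VoidZ.inr {Z : Lm → PropW n} (H : VoidZ n h Sl κ Q' Z) :
    VoidZ n h Sl κ (sumQ Q Q') Z := by
  intro al hal K₀ hK₀ S₀ hS₀
  obtain ⟨K, N, A, V, h1, h2, H⟩ := H al hal K₀ hK₀ S₀ hS₀
  refine ⟨K, N, A, V, h1, h2, fun S₂ hS₂ => ?_⟩
  obtain ⟨lam, K', N', V', h3, h4, ε, hε, H⟩ := H S₂ hS₂
  refine ⟨lam, K', N', V', h3, h4, ε, hε, fun S g₀ P θ P₂ θ₂ Eb e₂ c Pt r L T G g hG hg hd hZ => ?_⟩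
  obtain ⟨p, M, B₀, B₁, hB, H⟩ := H S g₀ P θ P₂ θ₂ Eb e₂ c Pt r L T G g hG hg hd hZ
  exact ⟨fun k => Sum.inr (p k), M, B₀, B₁, hB, H⟩

/-! ### Forms of a class theorem -/

/-- Under a condition without an amount. -/
theorem CelW.z (H : CelW n i h Sl κ Q W) : CelZ n i h Sl κ Q (fun _ : Unit => W) := by
  intro al hal K₀ hK₀ del hdel S₀ hS₀
  obtain ⟨K, N, A, V, h1, h2, H⟩ := H al hal K₀ hK₀ del hdel S₀ hS₀
  refine ⟨K, N, A, V, h1, h2, fun S₂ hS₂ => ?_⟩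
  obtain ⟨K', N', V', h3, h4, ε, hε, H⟩ := H S₂ hS₂
  exact ⟨(), K', N', V', h3, h4, ε, hε, H⟩

/-- A class theorem with the amounts `a` given after the constant of the pairs, for one `a`. -/
theorem CelL.at {Z : L₀ → Lm → PropW n} (H : CelL n i h Sl κ Q Z) (a : L₀) :
    CelZ n i h Sl κ Q (Z a) := by
  intro al hal K₀ hK₀ del hdel S₀ hS₀
  obtain ⟨K, N, A, V, h1, h2, H⟩ := H al hal K₀ hK₀ del hdel S₀ hS₀
  exact ⟨K, N, A, V, h1, h2, fun S₂ hS₂ => H S₂ hS₂ a⟩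

theorem CelQH.cz (H : CelQH n i h Sl κ Q) : CelZ n i h Sl κ Q (fun _ : Unit => TruW n) := by
  intro al hal K₀ hK₀ del hdel S₀ hS₀
  obtain ⟨K, N, A, V, h1, h2, H⟩ := H al hal K₀ hK₀ del hdel S₀ hS₀
  refine ⟨K, N, A, V, h1, h2, fun S₂ hS₂ => ?_⟩
  obtain ⟨K', N', V', h3, h4, ε, hε, H⟩ := H S₂ hS₂
  exact ⟨(), K', N', V', h3, h4, ε, hε, fun S g₀ P θ P₂ θ₂ Eb e₂ c Pt r L T G g hG hg hd _ =>
    H S g₀ P θ P₂ θ₂ Eb e₂ c Pt r L T G g hG hg hd⟩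

theorem CelZ.mono {Lm' : Type} {Z : Lm → PropW n} {Z' : Lm' → PropW n} (H : CelZ n i h Sl κ Q Z)
    (f : Lm → Lm') (hf : ∀ lam S P θ c Pt r L T G g, Z' (f lam) S P θ c Pt r L T κ G g →
      Z lam S P θ c Pt r L T κ G g) : CelZ n i h Sl κ Q Z' := by
  intro al hal K₀ hK₀ del hdel S₀ hS₀
  obtain ⟨K, N, A, V, h1, h2, H⟩ := H al hal K₀ hK₀ del hdel S₀ hS₀
  refine ⟨K, N, A, V, h1, h2, fun S₂ hS₂ => ?_⟩
  obtain ⟨lam, K', N', V', h3, h4, ε, hε, H⟩ := H S₂ hS₂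
  exact ⟨f lam, K', N', V', h3, h4, ε, hε, fun S g₀ P θ P₂ θ₂ Eb e₂ c Pt r L T G g hG hg hd hZ =>
    H S g₀ P θ P₂ θ₂ Eb e₂ c Pt r L T G g hG hg hd (hf _ _ _ _ _ _ _ _ _ _ _ hZ)⟩

/-- A void kind of windows, the amount `a` given after the constant of the pairs. -/
theorem VoidL.at {Z : L₀ → PropW n} (H : VoidL n h Sl κ Q Z) (a : L₀) :
    VoidZ n h Sl κ Q (fun _ : Unit => Z a) := by
  intro al hal K₀ hK₀ S₀ hS₀
  obtain ⟨K, N, A, V, h1, h2, H⟩ := H al hal K₀ hK₀ S₀ hS₀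
  refine ⟨K, N, A, V, h1, h2, fun S₂ hS₂ => ?_⟩
  obtain ⟨K', N', V', h3, h4, ε, hε, H⟩ := H S₂ hS₂ a
  exact ⟨(), K', N', V', h3, h4, ε, hε, H⟩

theorem VoidQH.vz (H : VoidQH n h Sl κ Q) : VoidZ n h Sl κ Q (fun _ : Unit => TruW n) := by
  intro al hal K₀ hK₀ S₀ hS₀
  obtain ⟨K, N, A, V, h1, h2, H⟩ := H al hal K₀ hK₀ S₀ hS₀
  refine ⟨K, N, A, V, h1, h2, fun S₂ hS₂ => ?_⟩
  obtain ⟨K', N', V', h3, h4, ε, hε, H⟩ := H S₂ hS₂
  exact ⟨(), K', N', V', h3, h4, ε, hε, fun S g₀ P θ P₂ θ₂ Eb e₂ c Pt r L T G g hG hg hd _ =>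
    H S g₀ P θ P₂ θ₂ Eb e₂ c Pt r L T G g hG hg hd⟩

/-- A void kind of windows, as a class theorem of any place. -/
theorem VoidZ.cel {Z : Lm → PropW n} (H : VoidZ n h Sl κ Q Z) (i : ℕ) :
    CelZ n i h Sl κ Q Z := by
  intro al hal K₀ hK₀ del hdel S₀ hS₀
  obtain ⟨K, N, A, V, h1, h2, H⟩ := H al hal K₀ hK₀ S₀ hS₀
  refine ⟨K, N, A, V, h1, h2, fun S₂ hS₂ => ?_⟩
  obtain ⟨lam, K', N', V', h3, h4, ε, hε, H⟩ := H S₂ hS₂
  refine ⟨lam, K', N', V', h3, h4, ε, hε, fun S g₀ P θ P₂ θ₂ Eb e₂ c Pt r L T G g hG hg hd hZ => ?_⟩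
  obtain ⟨p, M, B₀, B₁, hB, H⟩ := H S g₀ P θ P₂ θ₂ Eb e₂ c Pt r L T G g hG hg hd hZ
  refine ⟨p, M, B₀, B₁, hB, fun k₀ hk₀ => ?_⟩
  obtain ⟨q₁, hq₁, H⟩ := H k₀ hk₀
  exact ⟨q₁, hq₁, fun q t x hq hx R => (H q t x hq hx R).elim⟩

/-! ### The rules -/

/-- **One place is settled unless one of its conditions fails**; then this amount is fixed. -/
theorem CasW.cel {Z : Lm → PropW n} (hi : i ∈ I) (H : CelZ n i h Sl κ Q Z)
    (h2 : ∀ lam, CasW n I h Sl κ Q (AndW W (NotW (Z lam)))) : CasW n I h Sl κ Q W := by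
  classical
  intro S P θ c Pt r L T G g hg hq hW
  by_cases hz : ∀ lam, Z lam S P θ c Pt r L T κ G g
  · exact ⟨i, hi, Lm, Z, H, hz⟩
  · rw [not_forall] at hz
    obtain ⟨lam, hz⟩ := hz
    exact h2 lam S P θ c Pt r L T G g hg hq ⟨hW, hz⟩

/-- **A class theorem whose conditions follow.** -/
theorem CasW.leaf {Z : Lm → PropW n} (hi : i ∈ I) (H : CelZ n i h Sl κ Q Z)
    (h2 : ∀ S P θ c Pt r L T G g, GdW n Sl S L G g → AllQ Q S P θ c Pt r L T κ G g →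
      W S P θ c Pt r L T κ G g → ∀ lam, Z lam S P θ c Pt r L T κ G g) : CasW n I h Sl κ Q W :=
  fun S P θ c Pt r L T G g hg hq hW =>
    ⟨i, hi, Lm, Z, H, h2 S P θ c Pt r L T G g hg hq hW⟩

/-- **A step**: one of several cases. -/
theorem CasW.step {W' : L₀ → PropW n} (h2 : ∀ S P θ c Pt r L T G g, GdW n Sl S L G g →
      AllQ Q S P θ c Pt r L T κ G g → W S P θ c Pt r L T κ G g →
      ∃ a, W' a S P θ c Pt r L T κ G g) (H : ∀ a, CasW n I h Sl κ Q (W' a)) :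
    CasW n I h Sl κ Q W := by
  intro S P θ c Pt r L T G g hg hq hW
  obtain ⟨a, ha⟩ := h2 S P θ c Pt r L T G g hg hq hW
  exact H a S P θ c Pt r L T G g hg hq ha

/-- **Two cases.** -/
theorem CasW.or (Y : PropW n) (h1 : CasW n I h Sl κ Q (AndW W Y))
    (h2 : CasW n I h Sl κ Q (AndW W (NotW Y))) : CasW n I h Sl κ Q W := by
  classical
  intro S P θ c Pt r L T G g hg hq hW
  by_cases hY : Y S P θ c Pt r L T κ G g
  · exact h1 S P θ c Pt r L T G g hg hq ⟨hW, hY⟩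
  · exact h2 S P θ c Pt r L T G g hg hq ⟨hW, hY⟩

theorem CasW.imp (H : CasW n I h Sl κ Q W')
    (h2 : ∀ S P θ c Pt r L T G g, GdW n Sl S L G g → AllQ Q S P θ c Pt r L T κ G g →
      W S P θ c Pt r L T κ G g → W' S P θ c Pt r L T κ G g) : CasW n I h Sl κ Q W :=
  fun S P θ c Pt r L T G g hg hq hW =>
    H S P θ c Pt r L T G g hg hq (h2 S P θ c Pt r L T G g hg hq hW)

theorem CasW.mono {I' : Set ℕ} (H : CasW n I h Sl κ Q W) (hI : I ⊆ I') :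
    CasW n I' h Sl κ Q W := fun S P θ c Pt r L T G g hg hq hW => by
  obtain ⟨i, hi, Lm, Z, H⟩ := H S P θ c Pt r L T G g hg hq hW
  exact ⟨i, hI hi, Lm, Z, H⟩

/-- A void kind of windows, with any place. -/
theorem VoidL.cas {Z : L₀ → PropW n} (H : VoidL n h Sl κ Q Z) (hi : i ∈ I) (a : L₀) :
    CasW n I h Sl κ Q (Z a) :=
  CasW.leaf hi ((H.at a).cel i) fun _ _ _ _ _ _ _ _ _ _ _ _ hW _ => hW

/-- Void windows. -/
theorem CasV.cas (H : CasV n h Sl κ Q W) (hi : i ∈ I) : CasW n I h Sl κ Q W :=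
  fun S P θ c Pt r L T G g hg hq hW => by
    obtain ⟨Lm, Z, H, hz⟩ := H S P θ c Pt r L T G g hg hq hW
    exact ⟨i, hi, Lm, Z, H.cel i, hz⟩

theorem CasV.vo {Z : Lm → PropW n} (H : VoidZ n h Sl κ Q Z)
    (h2 : ∀ lam, CasV n h Sl κ Q (AndW W (NotW (Z lam)))) : CasV n h Sl κ Q W := by
  classical
  intro S P θ c Pt r L T G g hg hq hW
  by_cases hz : ∀ lam, Z lam S P θ c Pt r L T κ G g
  · exact ⟨Lm, Z, H, hz⟩
  · rw [not_forall] at hz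
    obtain ⟨lam, hz⟩ := hz
    exact h2 lam S P θ c Pt r L T G g hg hq ⟨hW, hz⟩

theorem CasV.leaf {Z : Lm → PropW n} (H : VoidZ n h Sl κ Q Z)
    (h2 : ∀ S P θ c Pt r L T G g, GdW n Sl S L G g → AllQ Q S P θ c Pt r L T κ G g →
      W S P θ c Pt r L T κ G g → ∀ lam, Z lam S P θ c Pt r L T κ G g) : CasV n h Sl κ Q W :=
  fun S P θ c Pt r L T G g hg hq hW => ⟨Lm, Z, H, h2 S P θ c Pt r L T G g hg hq hW⟩

theorem CasV.step {W' : L₀ → PropW n} (h2 : ∀ S P θ c Pt r L T G g, GdW n Sl S L G g →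
      AllQ Q S P θ c Pt r L T κ G g → W S P θ c Pt r L T κ G g →
      ∃ a, W' a S P θ c Pt r L T κ G g) (H : ∀ a, CasV n h Sl κ Q (W' a)) :
    CasV n h Sl κ Q W := by
  intro S P θ c Pt r L T G g hg hq hW
  obtain ⟨a, ha⟩ := h2 S P θ c Pt r L T G g hg hq hW
  exact H a S P θ c Pt r L T G g hg hq ha

theorem CasV.or (Y : PropW n) (h1 : CasV n h Sl κ Q (AndW W Y))
    (h2 : CasV n h Sl κ Q (AndW W (NotW Y))) : CasV n h Sl κ Q W := by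
  classical
  intro S P θ c Pt r L T G g hg hq hW
  by_cases hY : Y S P θ c Pt r L T κ G g
  · exact h1 S P θ c Pt r L T G g hg hq ⟨hW, hY⟩
  · exact h2 S P θ c Pt r L T G g hg hq ⟨hW, hY⟩

end

variable {n : ℕ} {hn : 2 ≤ n} {S : PCl n} {P : ℝ → ℝ → ℝ} {r : ℝ → ℝ}
  {P' : ℕ → List (Fin n) × Fin n → ℝ → ℝ → ℝ} {Λ : Finset (Fin n) → Fin n → ℝ → ℝ → ℝ}
  {PB : ℕ → List (Fin n) × Fin n → ℝ → ℝ → ℝ}

/-- **One of the places is static**, from the cases at the window. -/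
theorem stas_of_c {ι : Type} [Countable ι] {Q : PropG n ι} (hQ : AePG n Q)
    (H : PkT hn S P r P' Λ PB) (hTop : TopS n)
    (hF : FZX (n - 1)) (h : ℝ) {κ : ℕ → Kg} (Φ : (ℕ → ℝ) → Prop) {I : Set ℕ}
    (hI : ∀ i ∈ I, i ≤ n - 1)
    (hcls : ∀ Sl : ℕ → ℝ, Φ Sl → (∀ l < n, (κ l = .one → Sl l = 1) ∧ (κ l = .thin → 1 < Sl l) ∧
      (κ l = .sta → 2 ≤ Sl l) ∧ (κ l = .stp → 2 < Sl l)) → (∀ l < n, 1 ≤ Sl l) →
      CasW n I h Sl κ Q (TruW n)) (o : Od n) :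
    ∀ᵐ g : ℝ, RwH H hTop hF h o g → Φ (SlL hn P P' o g) →
      (∀ l < n, KgAt hn P P' PB o l g (κ l)) → ∃ i ∈ I, StaAt (LvL hn P P' o i) g := by
  filter_upwards [joint_aeH hQ H hTop hF o κ, H.dia_all H.pble hTop hF,
    sl_one H hTop hF, one_zero H hTop hF o] with g h1 hdia h1s h0 R hΦ hkg
  have ho := R.rwd.mem
  obtain ⟨α, Q₁, c', F⟩ := H.toPk.fac hTop hF ho
  have hg0 := F.g0
  have hg1 := F.g1
  obtain ⟨S', G, HT, hG, hgG, W, hQg⟩ := h1 ho hkg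
  obtain ⟨al, g₀, s', d', e', K₁, N₁, hal, hg₀, hC⟩ := HT.cl
  have hl0 : LvL hn P P' o 0 g g = g := by
    rw [Pool.Z4.lvL_eq o (by omega)]
    exact H.toPk.act_diag hTop hF ho
  obtain ⟨i, hi, Lm, Z, hcls, hz⟩ := hcls (SlL hn P P' o g) hΦ (fun l hl => (hkg l hl).sl)
    (h1s o ho) S' (P' o.2) (tht o.2) (cc hn o.1.1) P r (LvL hn P P' o) (LvT hn PB o) G g
    ⟨hC.ne, hg0, hg1, hG, hgG, fun l hl => (hdia o ho l (by omega)).1.hasDerivAt⟩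
    (fun p => by
      obtain ⟨k₀, hk₀, -⟩ := hQg p
      exact ⟨k₀, hk₀⟩) trivial
  refine ⟨i, hi, ?_⟩
  obtain ⟨P₂, θ₂, Eb, e₂, S₀, hS₀, W⟩ := W.recG HT hkg (fun l _ => rfl) (h0 ho) hl0 R.rwd.rdif
    R.defi hal hg₀ ⟨s', d', e', K₁, N₁, hC⟩
  refine sta_of_pairs (H.lawL o i) hg0 hg1 (hdia o ho i (hI i hi)).1
    fun K₀ del hK₀ hdel => ?_
  obtain ⟨K, N, A, V, hK, hAV, hc⟩ := hcls al hal (K₀ + del) (by linarith) del hdel S₀ hS₀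
  obtain ⟨S₂, hS₂, W⟩ := W K₀ K N A V (by linarith) hK hAV del hdel
  obtain ⟨lam, K', N', V', hKK, hV', ε, hε, hc⟩ := hc S₂ hS₂
  obtain ⟨q₁, hq₁, W⟩ := W K' N' V' hKK hV' ε hε
  obtain ⟨p, M, B₀, B₁, hB, hc⟩ := hc S' g₀ (P' o.2) (tht o.2) P₂ θ₂ Eb e₂ (cc hn o.1.1) P r
    (LvL hn P P' o) (LvT hn PB o) G g hG hgG
    (fun l hl => (hdia o ho l (by omega)).1.hasDerivAt) (hz lam)
  obtain ⟨k₀, hg₀k, q₂, hq₂, hx⟩ := pts_nearH (R := K₀ + del) (by linarith) hQg p M B₀ B₁ hB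
  obtain ⟨q₃, hq₃, hc⟩ := hc k₀ hg₀k
  refine ⟨min q₁ (min q₂ q₃), lt_min hq₁ (lt_min hq₂ hq₃), fun q u hq hq' hu => ?_⟩
  obtain ⟨t, ht1, ht2, hR⟩ := W q u hq (hq'.trans_le (min_le_left _ _)) hu
  obtain ⟨x, hx⟩ := hx q t hq (hq'.trans_le ((min_le_right _ _).trans (min_le_left _ _)))
    hR.near
  exact ⟨t, ht1, ht2, hc q t x (hq'.trans_le ((min_le_right _ _).trans (min_le_right _ _)))
    hx hR⟩

/-- **One of the places is static**, from the cases at the window, for all kinds at once. -/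
theorem stas_kindsC {ι : Type} [Countable ι] {Q : PropG n ι} (hQ : AePG n Q)
    (H : PkT hn S P r P' Λ PB) (hTop : TopS n) (hF : FZX (n - 1)) (h : ℝ)
    (Φ : (ℕ → Kg) → (ℕ → ℝ) → Prop) {I : Set ℕ} (hI : ∀ i ∈ I, i ≤ n - 1)
    (hcls : ∀ (κ : ℕ → Kg) (Sl : ℕ → ℝ), Φ κ Sl → (∀ l < n, (κ l = .one → Sl l = 1) ∧
      (κ l = .thin → 1 < Sl l) ∧ (κ l = .sta → 2 ≤ Sl l) ∧ (κ l = .stp → 2 < Sl l)) →
      (∀ l < n, 1 ≤ Sl l) → CasW n I h Sl κ Q (TruW n)) (o : Od n) :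
    ∀ᵐ g : ℝ, RwH H hTop hF h o g → ∀ f : Fin n → Kg, Φ (kgX n f) (SlL hn P P' o g) →
      (∀ l : Fin n, KgAt hn P P' PB o l g (f l)) → ∃ i ∈ I, StaAt (LvL hn P P' o i) g := by
  have : Countable Kg := Kg.count
  have h1 := ae_all_iff.2 fun f : Fin n → Kg =>
    stas_of_c (κ := kgX n f) hQ H hTop hF h (Φ (kgX n f)) hI
      (fun Sl k0 k1 k2 => hcls _ Sl k0 k1 k2) o
  filter_upwards [h1] with g k R f hΦ hk
  refine k f R hΦ fun l hl => ?_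
  unfold kgX
  rw [dif_pos hl]
  exact hk ⟨l, hl⟩

/-- **A static coordinate** at the place `i`, from the cases at the window, for all kinds at once. -/
theorem sta_kindsC {ι : Type} [Countable ι] {Q : PropG n ι} (hQ : AePG n Q)
    (H : PkT hn S P r P' Λ PB) (hTop : TopS n) (hF : FZX (n - 1)) (h : ℝ)
    (Φ : (ℕ → Kg) → (ℕ → ℝ) → Prop) {i : ℕ} (hi : i ≤ n - 1)
    (hcls : ∀ (κ : ℕ → Kg) (Sl : ℕ → ℝ), Φ κ Sl → (∀ l < n, (κ l = .one → Sl l = 1) ∧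
      (κ l = .thin → 1 < Sl l) ∧ (κ l = .sta → 2 ≤ Sl l) ∧ (κ l = .stp → 2 < Sl l)) →
      (∀ l < n, 1 ≤ Sl l) → CasW n {i} h Sl κ Q (TruW n)) (o : Od n) :
    ∀ᵐ g : ℝ, RwH H hTop hF h o g → ∀ f : Fin n → Kg, Φ (kgX n f) (SlL hn P P' o g) →
      (∀ l : Fin n, KgAt hn P P' PB o l g (f l)) → StaAt (LvL hn P P' o i) g := by
  filter_upwards [stas_kindsC hQ H hTop hF h Φ (I := {i}) (fun j hj => by
    rw [Set.mem_singleton_iff] at hj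
    rwa [hj]) hcls o] with g k R f hΦ hk
  obtain ⟨j, hj, h1⟩ := k R f hΦ hk
  rw [Set.mem_singleton_iff] at hj
  rwa [hj] at h1

/-- **A void kind of windows**, from the cases at the window. -/
theorem void_of_c {ι : Type} [Countable ι] {Q : PropG n ι} (hQ : AePG n Q)
    (H : PkT hn S P r P' Λ PB) (hTop : TopS n)
    (hF : FZX (n - 1)) (h : ℝ) {κ : ℕ → Kg} (Φ : (ℕ → ℝ) → Prop)
    (hcls : ∀ Sl : ℕ → ℝ, Φ Sl → (∀ l < n, (κ l = .one → Sl l = 1) ∧ (κ l = .thin → 1 < Sl l) ∧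
      (κ l = .sta → 2 ≤ Sl l) ∧ (κ l = .stp → 2 < Sl l)) → (∀ l < n, 1 ≤ Sl l) →
      CasV n h Sl κ Q (TruW n)) (o : Od n) :
    ∀ᵐ g : ℝ, RwH H hTop hF h o g → Φ (SlL hn P P' o g) →
      (∀ l < n, KgAt hn P P' PB o l g (κ l)) → False := by
  filter_upwards [joint_aeH hQ H hTop hF o κ, H.dia_all H.pble hTop hF, sl_one H hTop hF, one_zero H hTop hF o]
    with g h1 hdia h1s h0 R hΦ hkg
  have ho := R.rwd.mem
  obtain ⟨α, Q₁, c', F⟩ := H.toPk.fac hTop hF ho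
  have hg0 := F.g0
  have hg1 := F.g1
  obtain ⟨S', G, HT, hG, hgG, W, hQg⟩ := h1 ho hkg
  obtain ⟨al, g₀, s', d', e', K₁, N₁, hal, hg₀, hC⟩ := HT.cl
  have hl0 : LvL hn P P' o 0 g g = g := by
    rw [Pool.Z4.lvL_eq o (by omega)]
    exact H.toPk.act_diag hTop hF ho
  obtain ⟨Lm, Z, hcls, hz⟩ := hcls (SlL hn P P' o g) hΦ (fun l hl => (hkg l hl).sl)
    (h1s o ho) S' (P' o.2) (tht o.2) (cc hn o.1.1) P r (LvL hn P P' o) (LvT hn PB o) G g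
    ⟨hC.ne, hg0, hg1, hG, hgG, fun l hl => (hdia o ho l (by omega)).1.hasDerivAt⟩
    (fun p => by
      obtain ⟨k₀, hk₀, -⟩ := hQg p
      exact ⟨k₀, hk₀⟩) trivial
  obtain ⟨P₂, θ₂, Eb, e₂, S₀, hS₀, W⟩ := W.recG HT hkg (fun l _ => rfl) (h0 ho) hl0 R.rwd.rdif
    R.defi hal hg₀ ⟨s', d', e', K₁, N₁, hC⟩
  obtain ⟨K, N, A, V, hK, hAV, hc⟩ := hcls al hal (1 + 1) (by norm_num) S₀ hS₀
  obtain ⟨S₂, hS₂, W⟩ := W 1 K N A V one_pos hK hAV 1 one_pos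
  obtain ⟨lam, K', N', V', hKK, hV', ε, hε, hc⟩ := hc S₂ hS₂
  obtain ⟨q₁, hq₁, W⟩ := W K' N' V' hKK hV' ε hε
  obtain ⟨p, M, B₀, B₁, hB, hc⟩ := hc S' g₀ (P' o.2) (tht o.2) P₂ θ₂ Eb e₂ (cc hn o.1.1) P r
    (LvL hn P P' o) (LvT hn PB o) G g hG hgG
    (fun l hl => (hdia o ho l (by omega)).1.hasDerivAt) (hz lam)
  obtain ⟨k₀, hg₀k, q₂, hq₂, hx⟩ := pts_nearH (R := 1 + 1) (by norm_num) hQg p M B₀ B₁ hB
  obtain ⟨q₃, hq₃, hc⟩ := hc k₀ hg₀k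
  obtain ⟨q, hq⟩ : ∃ q, q = min q₁ (min q₂ q₃) / 2 := ⟨_, rfl⟩
  have hm : 0 < min q₁ (min q₂ q₃) := lt_min hq₁ (lt_min hq₂ hq₃)
  have hq0 : 0 < q := by rw [hq]; linarith
  have hqm : q < min q₁ (min q₂ q₃) := by rw [hq]; linarith
  obtain ⟨t, ht1, ht2, hR⟩ := W q g hq0 (hqm.trans_le (min_le_left _ _)) (by
    rw [sub_self, abs_zero]
    linarith)
  obtain ⟨x, hx⟩ := hx q t hq0 (hqm.trans_le ((min_le_right _ _).trans (min_le_left _ _)))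
    hR.near
  exact hc q t x (hqm.trans_le ((min_le_right _ _).trans (min_le_right _ _))) hx hR

end Pool.PKG

namespace Pool.ASM

open MeasureTheory Set Filter Topology
open Pool.GEN Pool.PKG Pool.SW
open Pool.ONE (Ext0 Ext)
open Pool.MIC6
open Pool.STR (StaAt SteepAt ThinAt)

/-- **`LCellB` from the cases at the window**: the place 2 or the place 3 is static. -/
theorem lCellB_of_c {ι : Type} [Countable ι] {Q : PropG 4 ι} (hQ : AePG 4 Q)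
    (hcls : ∀ h : ℝ, 0 < h → h ≤ 1 → ∀ Sl : ℕ → ℝ, Sl 0 = 1 → Sl 1 = 1 → 2 < Sl 2 → 2 < Sl 3 →
      CasW 4 {2, 3} h Sl kgB Q (TruW 4)) : LCellB := fun _ => by
  refine (Tol.le (1 / 2) (by norm_num)).mono fun η hη => ?_
  intro hn _ hF hTop D hD hD1 _ S P r P' Λ PB H o
  have h1 := hη D hD
  filter_upwards [stas_of_c (κ := kgB) (I := {2, 3}) hQ H hTop hF ((1 - η D) * D)
    (fun _ => True) (fun i hi => by
      rcases hi with rfl | hi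
      · norm_num
      · rw [Set.mem_singleton_iff] at hi
        rw [hi])
    (fun Sl _ k1 _ => hcls _ (mul_pos (by linarith) hD) (by nlinarith) Sl
      ((k1 0 (by omega)).1 rfl) ((k1 1 (by omega)).1 rfl) ((k1 2 (by omega)).2.2.2 rfl)
      ((k1 3 (by omega)).2.2.2 rfl)) o] with g h2 R _ hst hs e0 e1 hs2 hst2
  have h5 : LvL hn P P' o (4 - 1) = P := lvL_last o
  have h7 : LvL hn P P' o 3 = P := h5
  have h6 : LvT hn PB o 3 = PT hn PB o := LvT_top o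
  have h3 := h2 R trivial fun l hl => ?_
  · obtain ⟨i, hi, h3⟩ := h3
    rcases hi with rfl | hi
    · exact Or.inl h3
    · rw [Set.mem_singleton_iff] at hi
      rw [hi, h7] at h3
      exact Or.inr h3
  · have h4 : l = 0 ∨ l = 1 ∨ l = 2 ∨ l = 3 := by omega
    rcases h4 with rfl | rfl | rfl | rfl
    · exact e0
    · exact e1
    · exact ⟨hs2, hst2⟩
    · refine ⟨?_, ?_⟩
      · rw [h7]
        exact hs
      · rw [h6]
        exact hst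

/-- **`LV0A 4` from the cases at the window**: the place 2 is static. -/
theorem lV0A_of_c {ι : Type} [Countable ι] {Q : PropG 4 ι} (hQ : AePG 4 Q)
    (hcls : ∀ h : ℝ, 0 < h → h ≤ 1 → ∀ (Sl : ℕ → ℝ) (k : Kg), Sl 0 = 1 → Sl 1 = 1 → 2 ≤ Sl 3 →
      ((k = .thin ∧ 1 < Sl 2) ∨ (k = .stp ∧ 2 < Sl 2)) →
      CasW 4 {2} h Sl (kg4 .one .one k .sta) Q (TruW 4)) : LV0A 4 := fun _ => by
  refine (Tol.le (1 / 2) (by norm_num)).mono fun η hη => ?_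
  intro _ hn _ hF hTop D hD hD1 _ S P r P' Λ PB H o
  have h1 := hη D hD
  obtain ⟨h, hh⟩ : ∃ h, h = (1 - η D) * D := ⟨_, rfl⟩
  have h0 : 0 < h := by
    rw [hh]
    exact mul_pos (by linarith) hD
  have h1' : h ≤ 1 := by
    rw [hh]
    nlinarith
  rw [← hh]
  filter_upwards [sta_kindsC hQ H hTop hF h
    (fun κ _ => ∃ k : Kg, (k = .thin ∨ k = .stp) ∧ κ = kg4 .one .one k .sta) (i := 2)
    (by norm_num) (fun κ Sl k0 k1 _ => by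
      obtain ⟨k, hk, rfl⟩ := k0
      refine hcls h h0 h1' Sl k ((k1 0 (by norm_num)).1 rfl) ((k1 1 (by norm_num)).1 rfl)
        ((k1 3 (by norm_num)).2.2.1 rfl) ?_
      rcases hk with rfl | rfl
      · exact Or.inl ⟨rfl, (k1 2 (by norm_num)).2.1 rfl⟩
      · exact Or.inr ⟨rfl, (k1 2 (by norm_num)).2.2.2 rfl⟩) o,
    kg_all H hTop hF, kg_sta H hTop hF, sl_one H hTop hF, one_zero H hTop hF o]
    with g k1 k2 k3 k4 k5 R hP hst hl1 hl2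
  have ho := R.rwd.mem
  have e1 : LvL hn P P' o 1 = LL hn P P' o 2 := Pool.Z4.lvL_eq o (by norm_num)
  have e2 : LvL hn P P' o 2 = LL hn P P' o 3 := Pool.Z4.lvL_eq o (by norm_num)
  have e3 : LvL hn P P' o 3 = P := lvL_last o
  rw [← e1] at hl1
  rw [← e2] at hl2 ⊢
  have c0 : KgAt hn P P' PB o 0 g .one := k5 ho
  have c1 : KgAt hn P P' PB o 1 g .one := le_antisymm hl1 (k4 o ho 1 (by norm_num))
  have c3 : KgAt hn P P' PB o 3 g .sta := k3 o ho 3 (by norm_num) (by rw [e3]; exact hst)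
    (by rw [e3]; exact hP)
  obtain ⟨k, hk, c2⟩ := k2 o ho 2 (by norm_num)
  have key : (k = .thin ∨ k = .stp) → StaAt (LvL hn P P' o 2) g := fun hk' => by
    refine k1 R (fun l : Fin 4 => kg4 .one .one k .sta l) ⟨k, hk', kgX_four _ _ _ _⟩ fun l => ?_
    fin_cases l
    · exact c0
    · exact c1
    · exact c2
    · exact c3
  rcases k with _ | _ | _ | _ | _
  · exact absurd (show deriv (fun a => LvL hn P P' o 2 a a) g = 1 from c2) hl2.ne'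
  · exact key (Or.inl rfl)
  · exact c2.2
  · exact key (Or.inr rfl)
  · exact absurd rfl hk

/-- **`LV0B 4` from the cases at the window**: the place 1 is static. -/
theorem lV0B_of_c {ι : Type} [Countable ι] {Q : PropG 4 ι} (hQ : AePG 4 Q)
    (hcls : ∀ h : ℝ, 0 < h → h ≤ 1 → ∀ (Sl : ℕ → ℝ) (k : Kg), Sl 0 = 1 → Sl 2 = 1 → 2 ≤ Sl 3 →
      ((k = .thin ∧ 1 < Sl 1) ∨ (k = .stp ∧ 2 < Sl 1)) →
      CasW 4 {1} h Sl (kg4 .one k .one .sta) Q (TruW 4)) : LV0B 4 := fun _ => by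
  refine (Tol.le (1 / 2) (by norm_num)).mono fun η hη => ?_
  intro _ hn _ hF hTop D hD hD1 _ S P r P' Λ PB H o
  have h1 := hη D hD
  obtain ⟨h, hh⟩ : ∃ h, h = (1 - η D) * D := ⟨_, rfl⟩
  have h0 : 0 < h := by
    rw [hh]
    exact mul_pos (by linarith) hD
  have h1' : h ≤ 1 := by
    rw [hh]
    nlinarith
  rw [← hh]
  filter_upwards [sta_kindsC hQ H hTop hF h
    (fun κ _ => ∃ k : Kg, (k = .thin ∨ k = .stp) ∧ κ = kg4 .one k .one .sta) (i := 1)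
    (by norm_num) (fun κ Sl k0 k1 _ => by
      obtain ⟨k, hk, rfl⟩ := k0
      refine hcls h h0 h1' Sl k ((k1 0 (by norm_num)).1 rfl) ((k1 2 (by norm_num)).1 rfl)
        ((k1 3 (by norm_num)).2.2.1 rfl) ?_
      rcases hk with rfl | rfl
      · exact Or.inl ⟨rfl, (k1 1 (by norm_num)).2.1 rfl⟩
      · exact Or.inr ⟨rfl, (k1 1 (by norm_num)).2.2.2 rfl⟩) o,
    kg_all H hTop hF, kg_sta H hTop hF, sl_one H hTop hF, one_zero H hTop hF o]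
    with g k1 k2 k3 k4 k5 R hP hst hl1 hl2
  have ho := R.rwd.mem
  have e1 : LvL hn P P' o 1 = LL hn P P' o 2 := Pool.Z4.lvL_eq o (by norm_num)
  have e2 : LvL hn P P' o 2 = LL hn P P' o 3 := Pool.Z4.lvL_eq o (by norm_num)
  have e3 : LvL hn P P' o 3 = P := lvL_last o
  rw [← e2] at hl1
  rw [← e1] at hl2 ⊢
  have c0 : KgAt hn P P' PB o 0 g .one := k5 ho
  have c2 : KgAt hn P P' PB o 2 g .one := le_antisymm hl1 (k4 o ho 2 (by norm_num))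
  have c3 : KgAt hn P P' PB o 3 g .sta := k3 o ho 3 (by norm_num) (by rw [e3]; exact hst)
    (by rw [e3]; exact hP)
  obtain ⟨k, hk, c1⟩ := k2 o ho 1 (by norm_num)
  have key : (k = .thin ∨ k = .stp) → StaAt (LvL hn P P' o 1) g := fun hk' => by
    refine k1 R (fun l : Fin 4 => kg4 .one k .one .sta l) ⟨k, hk', kgX_four _ _ _ _⟩ fun l => ?_
    fin_cases l
    · exact c0
    · exact c1
    · exact c2
    · exact c3
  rcases k with _ | _ | _ | _ | _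
  · exact absurd (show deriv (fun a => LvL hn P P' o 1 a a) g = 1 from c1) hl2.ne'
  · exact key (Or.inl rfl)
  · exact c1.2
  · exact key (Or.inr rfl)
  · exact absurd rfl hk

/-- **`LV01 4` from the cases at the window.** -/
theorem lV01_of_c {ι : Type} [Countable ι] {Q : PropG 4 ι} (hQ : AePG 4 Q)
    (hcls2 : ∀ h : ℝ, 0 < h → h ≤ 1 → ∀ (Sl : ℕ → ℝ) (k : Kg), Sl 0 = 1 → Sl 1 = 1 → Sl 3 = 1 →
      ((k = .thin ∧ 1 < Sl 2) ∨ (k = .stp ∧ 2 < Sl 2)) →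
      CasW 4 {2} h Sl (kg4 .one .one k .one) Q (TruW 4))
    (hcls1 : ∀ h : ℝ, 0 < h → h ≤ 1 → ∀ (Sl : ℕ → ℝ) (k : Kg), Sl 0 = 1 → Sl 2 = 1 → Sl 3 = 1 →
      ((k = .thin ∧ 1 < Sl 1) ∨ (k = .stp ∧ 2 < Sl 1)) →
      CasW 4 {1} h Sl (kg4 .one k .one .one) Q (TruW 4)) : LV01 4 := fun _ => by
  refine (Tol.le (1 / 2) (by norm_num)).mono fun η hη _ => ?_
  intro hn _ hF hTop D hD hD1 _ S P r P' Λ PB H o
  have h1 := hη D hD
  obtain ⟨h, hh⟩ : ∃ h, h = (1 - η D) * D := ⟨_, rfl⟩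
  have h0 : 0 < h := by
    rw [hh]
    exact mul_pos (by linarith) hD
  have h1' : h ≤ 1 := by
    rw [hh]
    nlinarith
  rw [← hh]
  filter_upwards [sta_kindsC hQ H hTop hF h
    (fun κ _ => ∃ k : Kg, (k = .thin ∨ k = .stp) ∧ κ = kg4 .one .one k .one) (i := 2)
    (by norm_num) (fun κ Sl k0 k1 _ => by
      obtain ⟨k, hk, rfl⟩ := k0
      refine hcls2 h h0 h1' Sl k ((k1 0 (by norm_num)).1 rfl) ((k1 1 (by norm_num)).1 rfl)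
        ((k1 3 (by norm_num)).1 rfl) ?_
      rcases hk with rfl | rfl
      · exact Or.inl ⟨rfl, (k1 2 (by norm_num)).2.1 rfl⟩
      · exact Or.inr ⟨rfl, (k1 2 (by norm_num)).2.2.2 rfl⟩) o,
    sta_kindsC hQ H hTop hF h
    (fun κ _ => ∃ k : Kg, (k = .thin ∨ k = .stp) ∧ κ = kg4 .one k .one .one) (i := 1)
    (by norm_num) (fun κ Sl k0 k1 _ => by
      obtain ⟨k, hk, rfl⟩ := k0
      refine hcls1 h h0 h1' Sl k ((k1 0 (by norm_num)).1 rfl) ((k1 2 (by norm_num)).1 rfl)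
        ((k1 3 (by norm_num)).1 rfl) ?_
      rcases hk with rfl | rfl
      · exact Or.inl ⟨rfl, (k1 1 (by norm_num)).2.1 rfl⟩
      · exact Or.inr ⟨rfl, (k1 1 (by norm_num)).2.2.2 rfl⟩) o,
    kg_all H hTop hF, Pool.Z4.sta_zero H hTop hF o, sl_one H hTop hF, one_zero H hTop hF o]
    with g k1 k1' k2 k3 k4 k5 R hP hex i hi
  have ho := R.rwd.mem
  have e0 : ∀ l < 3, LvL hn P P' o l = LL hn P P' o (l + 1) := fun l hl =>
    Pool.Z4.lvL_eq o (by omega)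
  have e3 : LvL hn P P' o 3 = P := lvL_last o
  have c0 : KgAt hn P P' PB o 0 g .one := k5 ho
  have c3 : KgAt hn P P' PB o 3 g .one := by
    show deriv (fun a => LvL hn P P' o 3 a a) g = 1
    rw [e3]
    exact hP
  -- a coordinate of slope one is static
  have hone : ∀ l, 1 ≤ l → l < 3 → deriv (fun a => LvL hn P P' o l a a) g ≤ 1 →
      StaAt (LL hn P P' o (l + 1)) g := fun l hl1 hl hs => by
    rw [e0 l hl] at hs
    exact Pool.Z4.sta_one H hTop hF R.rwd (by omega) hs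
  obtain ⟨j, hj1, hj, hs⟩ := hex
  have hj3 : j < 3 := by omega
  rw [← e0 j hj3] at hs
  rcases Nat.eq_zero_or_pos i with hi0 | hi0
  · rw [hi0]
    exact k3 ho
  by_cases hs' : deriv (fun a => LvL hn P P' o i a a) g ≤ 1
  · exact hone i hi0 (by omega) hs'
  have hij : i ≠ j := fun h => hs' (h ▸ hs)
  push Not at hs'
  have cj : KgAt hn P P' PB o j g .one := le_antisymm hs (k4 o ho j (by omega))
  obtain ⟨k, hk, ci⟩ := k2 o ho i (by omega)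
  rw [← e0 i (by omega)]
  have hk' : (k = .thin ∨ k = .stp) ∨ StaAt (LvL hn P P' o i) g := by
    rcases k with _ | _ | _ | _ | _
    · exact absurd (show deriv (fun a => LvL hn P P' o i a a) g = 1 from ci) hs'.ne'
    · exact Or.inl (Or.inl rfl)
    · exact Or.inr ci.2
    · exact Or.inl (Or.inr rfl)
    · exact absurd rfl hk
  rcases hk' with hk' | hst
  swap
  · exact hst
  rcases (show (i = 2 ∧ j = 1) ∨ (i = 1 ∧ j = 2) by omega) with ⟨rfl, rfl⟩ | ⟨rfl, rfl⟩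
  · refine k1 R (fun l : Fin 4 => kg4 .one .one k .one l) ⟨k, hk', kgX_four _ _ _ _⟩ fun l => ?_
    fin_cases l
    · exact c0
    · exact cj
    · exact ci
    · exact c3
  · refine k1' R (fun l : Fin 4 => kg4 .one k .one .one l) ⟨k, hk', kgX_four _ _ _ _⟩ fun l => ?_
    fin_cases l
    · exact c0
    · exact ci
    · exact cj
    · exact c3

end Pool.ASM
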