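import Pool.Agent.H80.DIC.Rt
import Pool.Agent.H73.D2.Tmw

/-!
# The class theorem `CelZ` as a case

`CelZ.y`, `CelZ.l`: from `CelZ` to `CelY`, `CelL`. `celQH_three_z`: three kinds of windows, the first
one by `CelZ`.
-/

set_option autoImplicit false

namespace Pool.PKG

variable {ι Λ L₀ : Type} {n i : ℕ} {h : ℝ} {Sl : ℕ → ℝ} {κ : ℕ → Kg} {Q : PropG n ι}

theorem CelZ.y {Z : Λ → PropW n} (H : CelZ n i h Sl κ Q Z) : CelY n i h Sl κ Q Z := by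
  intro al hal K₀ hK₀ del hdel S₀ hS₀
  obtain ⟨K, N, A, V, h1, h2, H⟩ := H al hal K₀ hK₀ del hdel S₀ hS₀
  exact ⟨K, N, A, V, h1, h2, fun S₂ hS₂ => H S₂ hS₂⟩

theorem CelZ.l {Z : Λ → PropW n} (H : CelZ n i h Sl κ Q Z) (L₀ : Type) :
    CelL n i h Sl κ Q (fun (_ : L₀) b => Z b) := H.y.l L₀

end Pool.PKG

namespace Pool.ALT

open Pool.PKG Pool.LA91

/-- **Three kinds of windows**, the first one by `CelZ`. -/
theorem celQH_three_z {ι Lam : Type} {n i : ℕ} {h : ℝ} {Sl : ℕ → ℝ} {κ : ℕ → Kg} {Q : PropG n ι}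
    {Adm : AltJ → PropW n} {β : ℝ} {Z₀ : Lam → PropW n}
    (h0 : CelZ n i h Sl κ (sumQ Q (AltQ : PropG n AltI)) Z₀)
    (h1 : CelR n i h Sl κ Q Adm β (fun b => NotW (Z₀ b)))
    (h2 : VoidR n h Sl κ Q Adm β (fun b => NotW (Z₀ b))) :
    CelQH n i h Sl κ (sumQ Q (AltQ : PropG n AltI)) := celQH_three h0.y h1 h2

end Pool.ALT
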