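import Pool.Agent.H80.DIC.Mono

/-!
# Cases for the windows in a class theorem

`PropW`: a condition at the window. `CelL`, `VoidL`: class theorems under a condition with parameters;
the parameters `a : L₀` are arbitrary, the parameters `b : L₁` are chosen by the theorem, both after
the constant `S₂` of the pairs. `CelY`: without `a`; `CelW`: without parameters. `celL_void`: one of
two kinds of windows is void; `celL_or`: two kinds. `celW_true`: `CelQH`.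
-/

set_option autoImplicit false

namespace Pool.PKG

open Pool.Agent.H49.Ent Pool.Agent.H32.Dense Pool.STK Pool.KA Pool.KSAT Pool.K2S Pool.PB
open Pool.GEN Pool.S6C Pool.STAT Pool.CHT Pool.GRW Pool.ONE Pool.STA

/-- **A condition** on the letters `S P θ c Pt r L T κ G g` of a record at the window `g`. -/
abbrev PropW (n : ℕ) : Type _ :=
  PCl n → (List (Fin n) × Fin n → ℝ → ℝ → ℝ) → ℝ → (ℕ → Fin n) → (ℝ → ℝ → ℝ) →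
    (ℝ → ℝ) → (ℕ → ℝ → ℝ → ℝ) → (ℕ → ℝ → ℝ → ℝ) → (ℕ → Kg) → Set ℝ → ℝ → Prop

/-- Both conditions. -/
def AndW {n : ℕ} (W W' : PropW n) : PropW n :=
  fun S P θ c Pt r L T κ G g => W S P θ c Pt r L T κ G g ∧ W' S P θ c Pt r L T κ G g

/-- No condition. -/
def TruW (n : ℕ) : PropW n := fun _ _ _ _ _ _ _ _ _ _ _ => True

/-- The opposite condition. -/
def NotW {n : ℕ} (W : PropW n) : PropW n :=
  fun S P θ c Pt r L T κ G g => ¬ W S P θ c Pt r L T κ G g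

/-- **The class theorem of a cell under a condition** `Z a b` at the window, for all `a` and for some
`b`, chosen after the constant `S₂` of the pairs. -/
def CelL {ι L₀ L₁ : Type} (n i : ℕ) (h : ℝ) (Sl : ℕ → ℝ) (κ : ℕ → Kg) (Q : PropG n ι)
    (Z : L₀ → L₁ → PropW n) : Prop :=
  ∀ al : ℝ, 0 < al → ∀ K₀ : ℝ, 0 < K₀ → ∀ del : ℝ, 0 < del → ∀ S₀ : ℕ, 1 ≤ S₀ →
    ∃ (K : ℝ) (N : ℕ) (A V : ℕ → ℝ), 1 ≤ K ∧ (∀ k < N, -K ≤ V k ∧ V k ≤ A k ∧ A k ≤ K) ∧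
    ∀ S₂ : ℕ, S₀ ≤ S₂ → ∀ a : L₀, ∃ b : L₁, ∃ (K' : ℝ) (N' : ℕ) (V' : ℕ → ℝ), K ≤ K' ∧
      (∀ k < N', -K' ≤ V' k ∧ V' k ≤ K') ∧
      ∃ ε : ℝ, 0 < ε ∧ ∀ (S : PCl n) (g₀ : ℝ → ℝ) (P : List (Fin n) × Fin n → ℝ → ℝ → ℝ)
      (θ : ℝ) (P₂ : ℕ → List (Fin n) × Fin n → ℝ → ℝ → ℝ) (θ₂ Eb e₂ : ℕ → ℝ) (c : ℕ → Fin n)
      (Pt : ℝ → ℝ → ℝ) (r : ℝ → ℝ) (L T : ℕ → ℝ → ℝ → ℝ) (G : Set ℝ) (g : ℝ),
      IsClosed G → g ∈ G → (∀ l < n, HasDerivAt (fun x => L l x x) (Sl l) g) →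
      Z a b S P θ c Pt r L T κ G g →
      ∃ (p : ℕ → ι) (M : ℕ) (B₀ B₁ : ℕ → ℝ),
      (∀ j < M, B₀ j < B₁ j) ∧ ∀ k₀ : ℕ → ℕ,
      (∀ j < M, Q (p j) (k₀ j) S P θ c Pt r L T κ G g) →
      ∃ q₁ : ℝ, 0 < q₁ ∧ ∀ (q t : ℝ) (x : ℕ → ℝ),
      q < q₁ → (∀ j < M, x j ∈ G ∧ t + B₀ j * q ≤ x j ∧ x j ≤ t + B₁ j * q ∧
        Q (p j) (k₀ j) S P θ c Pt r L T κ G (x j)) →
      RecG S al g₀ P θ P₂ θ₂ Eb e₂ c Pt r h K₀ g L T Sl κ G S₀ N A V S₂ N' V' K' ε q t →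
      L i (t + q) (t + q) ≤ L i (t + q) t + del * q

/-- **The class theorem of a cell under a condition** `Z b` at the window, for some `b`, chosen after
the constant `S₂` of the pairs. -/
def CelY {ι Lam : Type} (n i : ℕ) (h : ℝ) (Sl : ℕ → ℝ) (κ : ℕ → Kg) (Q : PropG n ι)
    (Z : Lam → PropW n) : Prop :=
  ∀ al : ℝ, 0 < al → ∀ K₀ : ℝ, 0 < K₀ → ∀ del : ℝ, 0 < del → ∀ S₀ : ℕ, 1 ≤ S₀ →
    ∃ (K : ℝ) (N : ℕ) (A V : ℕ → ℝ), 1 ≤ K ∧ (∀ k < N, -K ≤ V k ∧ V k ≤ A k ∧ A k ≤ K) ∧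
    ∀ S₂ : ℕ, S₀ ≤ S₂ → ∃ b : Lam, ∃ (K' : ℝ) (N' : ℕ) (V' : ℕ → ℝ), K ≤ K' ∧
      (∀ k < N', -K' ≤ V' k ∧ V' k ≤ K') ∧
      ∃ ε : ℝ, 0 < ε ∧ ∀ (S : PCl n) (g₀ : ℝ → ℝ) (P : List (Fin n) × Fin n → ℝ → ℝ → ℝ)
      (θ : ℝ) (P₂ : ℕ → List (Fin n) × Fin n → ℝ → ℝ → ℝ) (θ₂ Eb e₂ : ℕ → ℝ) (c : ℕ → Fin n)
      (Pt : ℝ → ℝ → ℝ) (r : ℝ → ℝ) (L T : ℕ → ℝ → ℝ → ℝ) (G : Set ℝ) (g : ℝ),
      IsClosed G → g ∈ G → (∀ l < n, HasDerivAt (fun x => L l x x) (Sl l) g) →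
      Z b S P θ c Pt r L T κ G g →
      ∃ (p : ℕ → ι) (M : ℕ) (B₀ B₁ : ℕ → ℝ),
      (∀ j < M, B₀ j < B₁ j) ∧ ∀ k₀ : ℕ → ℕ,
      (∀ j < M, Q (p j) (k₀ j) S P θ c Pt r L T κ G g) →
      ∃ q₁ : ℝ, 0 < q₁ ∧ ∀ (q t : ℝ) (x : ℕ → ℝ),
      q < q₁ → (∀ j < M, x j ∈ G ∧ t + B₀ j * q ≤ x j ∧ x j ≤ t + B₁ j * q ∧
        Q (p j) (k₀ j) S P θ c Pt r L T κ G (x j)) →
      RecG S al g₀ P θ P₂ θ₂ Eb e₂ c Pt r h K₀ g L T Sl κ G S₀ N A V S₂ N' V' K' ε q t →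
      L i (t + q) (t + q) ≤ L i (t + q) t + del * q

/-- **The class theorem of a cell under a condition** `W` at the window. -/
def CelW {ι : Type} (n i : ℕ) (h : ℝ) (Sl : ℕ → ℝ) (κ : ℕ → Kg) (Q : PropG n ι)
    (W : PropW n) : Prop :=
  ∀ al : ℝ, 0 < al → ∀ K₀ : ℝ, 0 < K₀ → ∀ del : ℝ, 0 < del → ∀ S₀ : ℕ, 1 ≤ S₀ →
    ∃ (K : ℝ) (N : ℕ) (A V : ℕ → ℝ), 1 ≤ K ∧ (∀ k < N, -K ≤ V k ∧ V k ≤ A k ∧ A k ≤ K) ∧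
    ∀ S₂ : ℕ, S₀ ≤ S₂ → ∃ (K' : ℝ) (N' : ℕ) (V' : ℕ → ℝ), K ≤ K' ∧
      (∀ k < N', -K' ≤ V' k ∧ V' k ≤ K') ∧
      ∃ ε : ℝ, 0 < ε ∧ ∀ (S : PCl n) (g₀ : ℝ → ℝ) (P : List (Fin n) × Fin n → ℝ → ℝ → ℝ)
      (θ : ℝ) (P₂ : ℕ → List (Fin n) × Fin n → ℝ → ℝ → ℝ) (θ₂ Eb e₂ : ℕ → ℝ) (c : ℕ → Fin n)
      (Pt : ℝ → ℝ → ℝ) (r : ℝ → ℝ) (L T : ℕ → ℝ → ℝ → ℝ) (G : Set ℝ) (g : ℝ),
      IsClosed G → g ∈ G → (∀ l < n, HasDerivAt (fun x => L l x x) (Sl l) g) →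
      W S P θ c Pt r L T κ G g →
      ∃ (p : ℕ → ι) (M : ℕ) (B₀ B₁ : ℕ → ℝ),
      (∀ j < M, B₀ j < B₁ j) ∧ ∀ k₀ : ℕ → ℕ,
      (∀ j < M, Q (p j) (k₀ j) S P θ c Pt r L T κ G g) →
      ∃ q₁ : ℝ, 0 < q₁ ∧ ∀ (q t : ℝ) (x : ℕ → ℝ),
      q < q₁ → (∀ j < M, x j ∈ G ∧ t + B₀ j * q ≤ x j ∧ x j ≤ t + B₁ j * q ∧
        Q (p j) (k₀ j) S P θ c Pt r L T κ G (x j)) →
      RecG S al g₀ P θ P₂ θ₂ Eb e₂ c Pt r h K₀ g L T Sl κ G S₀ N A V S₂ N' V' K' ε q t →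
      L i (t + q) (t + q) ≤ L i (t + q) t + del * q

/-- **The class theorem of a void kind of windows**, with a condition `Z a` at the window, for all `a`,
after the constant `S₂` of the pairs. -/
def VoidL {ι L₀ : Type} (n : ℕ) (h : ℝ) (Sl : ℕ → ℝ) (κ : ℕ → Kg) (Q : PropG n ι)
    (Z : L₀ → PropW n) : Prop :=
  ∀ al : ℝ, 0 < al → ∀ K₀ : ℝ, 0 < K₀ → ∀ S₀ : ℕ, 1 ≤ S₀ →
    ∃ (K : ℝ) (N : ℕ) (A V : ℕ → ℝ), 1 ≤ K ∧ (∀ k < N, -K ≤ V k ∧ V k ≤ A k ∧ A k ≤ K) ∧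
    ∀ S₂ : ℕ, S₀ ≤ S₂ → ∀ a : L₀, ∃ (K' : ℝ) (N' : ℕ) (V' : ℕ → ℝ), K ≤ K' ∧
      (∀ k < N', -K' ≤ V' k ∧ V' k ≤ K') ∧
      ∃ ε : ℝ, 0 < ε ∧ ∀ (S : PCl n) (g₀ : ℝ → ℝ) (P : List (Fin n) × Fin n → ℝ → ℝ → ℝ)
      (θ : ℝ) (P₂ : ℕ → List (Fin n) × Fin n → ℝ → ℝ → ℝ) (θ₂ Eb e₂ : ℕ → ℝ) (c : ℕ → Fin n)
      (Pt : ℝ → ℝ → ℝ) (r : ℝ → ℝ) (L T : ℕ → ℝ → ℝ → ℝ) (G : Set ℝ) (g : ℝ),
      IsClosed G → g ∈ G → (∀ l < n, HasDerivAt (fun x => L l x x) (Sl l) g) →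
      Z a S P θ c Pt r L T κ G g →
      ∃ (p : ℕ → ι) (M : ℕ) (B₀ B₁ : ℕ → ℝ),
      (∀ j < M, B₀ j < B₁ j) ∧ ∀ k₀ : ℕ → ℕ,
      (∀ j < M, Q (p j) (k₀ j) S P θ c Pt r L T κ G g) →
      ∃ q₁ : ℝ, 0 < q₁ ∧ ∀ (q t : ℝ) (x : ℕ → ℝ),
      q < q₁ → (∀ j < M, x j ∈ G ∧ t + B₀ j * q ≤ x j ∧ x j ≤ t + B₁ j * q ∧
        Q (p j) (k₀ j) S P θ c Pt r L T κ G (x j)) →
      RecG S al g₀ P θ P₂ θ₂ Eb e₂ c Pt r h K₀ g L T Sl κ G S₀ N A V S₂ N' V' K' ε q t →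
      False

section

variable {ι L₀ L₁ : Type} {n i : ℕ} {h : ℝ} {Sl : ℕ → ℝ} {κ : ℕ → Kg} {Q : PropG n ι}

theorem CelL.imp {L₀' : Type} {Z : L₀ → L₁ → PropW n} {Z' : L₀' → L₁ → PropW n}
    (H : CelL n i h Sl κ Q Z) (f : L₀' → L₀)
    (hZ : ∀ a b S P θ c Pt r L T G g, Z' a b S P θ c Pt r L T κ G g →
      Z (f a) b S P θ c Pt r L T κ G g) : CelL n i h Sl κ Q Z' := by
  intro al hal K₀ hK₀ del hdel S₀ hS₀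
  obtain ⟨K, N, A, V, h1, h2, H⟩ := H al hal K₀ hK₀ del hdel S₀ hS₀
  refine ⟨K, N, A, V, h1, h2, fun S₂ hS₂ a => ?_⟩
  obtain ⟨b, K', N', V', h3, h4, ε, hε, H⟩ := H S₂ hS₂ (f a)
  exact ⟨b, K', N', V', h3, h4, ε, hε, fun S g₀ P θ P₂ θ₂ Eb e₂ c Pt r L T G g hG hg hd hZ' =>
    H S g₀ P θ P₂ θ₂ Eb e₂ c Pt r L T G g hG hg hd (hZ a b S P θ c Pt r L T G g hZ')⟩

theorem CelL.imp' {L₁' : Type} {Z : L₀ → L₁ → PropW n} {Z' : L₀ → L₁' → PropW n}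
    (H : CelL n i h Sl κ Q Z) (f : L₁ → L₁')
    (hZ : ∀ a b S P θ c Pt r L T G g, Z' a (f b) S P θ c Pt r L T κ G g →
      Z a b S P θ c Pt r L T κ G g) : CelL n i h Sl κ Q Z' := by
  intro al hal K₀ hK₀ del hdel S₀ hS₀
  obtain ⟨K, N, A, V, h1, h2, H⟩ := H al hal K₀ hK₀ del hdel S₀ hS₀
  refine ⟨K, N, A, V, h1, h2, fun S₂ hS₂ a => ?_⟩
  obtain ⟨b, K', N', V', h3, h4, ε, hε, H⟩ := H S₂ hS₂ a
  exact ⟨f b, K', N', V', h3, h4, ε, hε, fun S g₀ P θ P₂ θ₂ Eb e₂ c Pt r L T G g hG hg hd hZ' =>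
    H S g₀ P θ P₂ θ₂ Eb e₂ c Pt r L T G g hG hg hd (hZ a b S P θ c Pt r L T G g hZ')⟩

theorem CelY.l {Z : L₁ → PropW n} (H : CelY n i h Sl κ Q Z) (L₀ : Type) :
    CelL n i h Sl κ Q (fun (_ : L₀) b => Z b) := by
  intro al hal K₀ hK₀ del hdel S₀ hS₀
  obtain ⟨K, N, A, V, h1, h2, H⟩ := H al hal K₀ hK₀ del hdel S₀ hS₀
  exact ⟨K, N, A, V, h1, h2, fun S₂ hS₂ _ => H S₂ hS₂⟩

theorem CelL.z [Nonempty L₀] {Z : L₀ → L₁ → PropW n} {Z' : L₁ → PropW n}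
    (H : CelL n i h Sl κ Q Z)
    (hZ : ∀ a b S P θ c Pt r L T G g, Z' b S P θ c Pt r L T κ G g →
      Z a b S P θ c Pt r L T κ G g) : CelY n i h Sl κ Q Z' := by
  intro al hal K₀ hK₀ del hdel S₀ hS₀
  obtain ⟨K, N, A, V, h1, h2, H⟩ := H al hal K₀ hK₀ del hdel S₀ hS₀
  refine ⟨K, N, A, V, h1, h2, fun S₂ hS₂ => ?_⟩
  obtain ⟨b, K', N', V', h3, h4, ε, hε, H⟩ := H S₂ hS₂ (Classical.arbitrary L₀)
  exact ⟨b, K', N', V', h3, h4, ε, hε, fun S g₀ P θ P₂ θ₂ Eb e₂ c Pt r L T G g hG hg hd hZ' =>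
    H S g₀ P θ P₂ θ₂ Eb e₂ c Pt r L T G g hG hg hd (hZ _ b S P θ c Pt r L T G g hZ')⟩

theorem CelY.w {W : PropW n} (H : CelY n i h Sl κ Q (fun _ : Unit => W)) :
    CelW n i h Sl κ Q W := by
  intro al hal K₀ hK₀ del hdel S₀ hS₀
  obtain ⟨K, N, A, V, h1, h2, H⟩ := H al hal K₀ hK₀ del hdel S₀ hS₀
  refine ⟨K, N, A, V, h1, h2, fun S₂ hS₂ => ?_⟩
  obtain ⟨_, K', N', V', h3, h4, ε, hε, H⟩ := H S₂ hS₂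
  exact ⟨K', N', V', h3, h4, ε, hε, H⟩

theorem celW_true (H : CelW n i h Sl κ Q (TruW n)) : CelQH n i h Sl κ Q := by
  intro al hal K₀ hK₀ del hdel S₀ hS₀
  obtain ⟨K, N, A, V, h1, h2, H⟩ := H al hal K₀ hK₀ del hdel S₀ hS₀
  refine ⟨K, N, A, V, h1, h2, fun S₂ hS₂ => ?_⟩
  obtain ⟨K', N', V', h3, h4, ε, hε, H⟩ := H S₂ hS₂
  exact ⟨K', N', V', h3, h4, ε, hε, fun S g₀ P θ P₂ θ₂ Eb e₂ c Pt r L T G g hG hg hd =>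
    H S g₀ P θ P₂ θ₂ Eb e₂ c Pt r L T G g hG hg hd trivial⟩

/-- Without a condition. -/
theorem celL_true [Nonempty L₀] (H : CelL n i h Sl κ Q (fun (_ : L₀) (_ : Unit) => TruW n)) :
    CelQH n i h Sl κ Q := celW_true (CelL.z H fun _ _ _ _ _ _ _ _ _ _ _ _ h => h).w

theorem CelQH.l (H : CelQH n i h Sl κ Q) [Nonempty L₁] (Z : L₀ → L₁ → PropW n) :
    CelL n i h Sl κ Q Z := by
  intro al hal K₀ hK₀ del hdel S₀ hS₀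
  obtain ⟨K, N, A, V, h1, h2, H⟩ := H al hal K₀ hK₀ del hdel S₀ hS₀
  refine ⟨K, N, A, V, h1, h2, fun S₂ hS₂ _ => ?_⟩
  obtain ⟨K', N', V', h3, h4, ε, hε, H⟩ := H S₂ hS₂
  exact ⟨Classical.arbitrary L₁, K', N', V', h3, h4, ε, hε, fun S g₀ P θ P₂ θ₂ Eb e₂ c Pt r L T G g
    hG hg hd _ => H S g₀ P θ P₂ θ₂ Eb e₂ c Pt r L T G g hG hg hd⟩

end

/-- Two lists of windows, one after the other. -/
def lapp (N : ℕ) (A B : ℕ → ℝ) (k : ℕ) : ℝ := if k < N then A k else B (k - N)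

theorem lapp_lt {N : ℕ} {A B : ℕ → ℝ} {k : ℕ} (hk : k < N) : lapp N A B k = A k := if_pos hk

theorem lapp_add {N : ℕ} {A B : ℕ → ℝ} (k : ℕ) : lapp N A B (N + k) = B k := by
  unfold lapp
  rw [if_neg (by omega), Nat.add_sub_cancel_left]

/-- **Two kinds of windows, the second one is void**: it may depend on the parameters of the first. -/
theorem celL_void {ι L₀ L₁ : Type} {n i : ℕ} {h : ℝ} {Sl : ℕ → ℝ} {κ : ℕ → Kg} {Q : PropG n ι}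
    {W : L₀ → PropW n} {Z : L₀ → L₁ → PropW n} {Z' : L₀ × L₁ → PropW n} (hA : CelL n i h Sl κ Q Z)
    (hB : VoidL n h Sl κ Q Z')
    (hZ : ∀ a b S P θ c Pt r L T G g, W a S P θ c Pt r L T κ G g →
      Z a b S P θ c Pt r L T κ G g ∨ Z' (a, b) S P θ c Pt r L T κ G g) :
    CelL n i h Sl κ Q (fun a (_ : Unit) => W a) := by
  intro al hal K₀ hK₀ del hdel S₀ hS₀
  obtain ⟨K₁, N₁, A₁, V₁, hK₁, hV₁, HA⟩ := hA al hal K₀ hK₀ del hdel S₀ hS₀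
  obtain ⟨K₂, N₂, A₂, V₂, hK₂, hV₂, HB⟩ := hB al hal K₀ hK₀ S₀ hS₀
  have l1 : K₁ ≤ max K₁ K₂ := le_max_left _ _
  have l2 : K₂ ≤ max K₁ K₂ := le_max_right _ _
  refine ⟨max K₁ K₂, N₁ + N₂, lapp N₁ A₁ A₂, lapp N₁ V₁ V₂, hK₁.trans l1, fun k hk => ?_,
    fun S₂ hS₂ a => ?_⟩
  · rcases lt_or_ge k N₁ with h1 | h1
    · rw [lapp_lt h1, lapp_lt h1]
      obtain ⟨a1, a2, a3⟩ := hV₁ k h1
      exact ⟨by linarith, a2, by linarith⟩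
    · obtain ⟨j, rfl⟩ := Nat.exists_eq_add_of_le h1
      rw [lapp_add, lapp_add]
      obtain ⟨a1, a2, a3⟩ := hV₂ j (by omega)
      exact ⟨by linarith, a2, by linarith⟩
  obtain ⟨b, K₁', N₁', V₁', hKK₁, hV₁', ε₁, hε₁, HA⟩ := HA S₂ hS₂ a
  obtain ⟨K₂', N₂', V₂', hKK₂, hV₂', ε₂, hε₂, HB⟩ := HB S₂ hS₂ (a, b)
  have l3 : K₁' ≤ max K₁' K₂' := le_max_left _ _
  have l4 : K₂' ≤ max K₁' K₂' := le_max_right _ _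
  refine ⟨(), max K₁' K₂', N₁' + N₂', lapp N₁' V₁' V₂', max_le_max hKK₁ hKK₂, fun k hk => ?_,
    min ε₁ ε₂, lt_min hε₁ hε₂, fun S g₀ P θ P₂ θ₂ Eb e₂ c Pt r L T G g hG hg hd hW => ?_⟩
  · rcases lt_or_ge k N₁' with h1 | h1
    · rw [lapp_lt h1]
      obtain ⟨a1, a2⟩ := hV₁' k h1
      exact ⟨by linarith, by linarith⟩
    · obtain ⟨j, rfl⟩ := Nat.exists_eq_add_of_le h1
      rw [lapp_add]
      obtain ⟨a1, a2⟩ := hV₂' j (by omega)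
      exact ⟨by linarith, by linarith⟩
  rcases hZ a b S P θ c Pt r L T G g hW with h1 | h1
  · obtain ⟨p, M, B₀, B₁, hB, H⟩ := HA S g₀ P θ P₂ θ₂ Eb e₂ c Pt r L T G g hG hg hd h1
    refine ⟨p, M, B₀, B₁, hB, fun k₀ hk₀ => ?_⟩
    obtain ⟨q₁, hq₁, H⟩ := H k₀ hk₀
    refine ⟨q₁, hq₁, fun q t x hq hx R => H q t x hq hx (R.mono l3 (min_le_left _ _)
      (fun k hk => ⟨k, by omega, (lapp_lt hk).symm, (lapp_lt hk).symm⟩)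
      fun k hk => ⟨k, by omega, (lapp_lt hk).symm⟩)⟩
  · obtain ⟨p, M, B₀, B₁, hB, H⟩ := HB S g₀ P θ P₂ θ₂ Eb e₂ c Pt r L T G g hG hg hd h1
    refine ⟨p, M, B₀, B₁, hB, fun k₀ hk₀ => ?_⟩
    obtain ⟨q₁, hq₁, H⟩ := H k₀ hk₀
    refine ⟨q₁, hq₁, fun q t x hq hx R => (H q t x hq hx (R.mono l4 (min_le_right _ _)
      (fun k hk => ⟨N₁ + k, by omega, (lapp_add k).symm, (lapp_add k).symm⟩)
      fun k hk => ⟨N₁' + k, by omega, (lapp_add k).symm⟩)).elim⟩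

/-- **Two kinds of windows**: the second one may depend on the parameters of the first. -/
theorem celL_or {ι L₀ L₁ : Type} {n i : ℕ} {h : ℝ} {Sl : ℕ → ℝ} {κ : ℕ → Kg} {Q : PropG n ι}
    {W : L₀ → PropW n} {Z : L₀ → L₁ → PropW n} {Z' : L₀ × L₁ → Unit → PropW n} (hA : CelL n i h Sl κ Q Z)
    (hB : CelL n i h Sl κ Q Z')
    (hZ : ∀ a b S P θ c Pt r L T G g, W a S P θ c Pt r L T κ G g →
      Z a b S P θ c Pt r L T κ G g ∨ Z' (a, b) () S P θ c Pt r L T κ G g) :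
    CelL n i h Sl κ Q (fun a (_ : Unit) => W a) := by
  intro al hal K₀ hK₀ del hdel S₀ hS₀
  obtain ⟨K₁, N₁, A₁, V₁, hK₁, hV₁, HA⟩ := hA al hal K₀ hK₀ del hdel S₀ hS₀
  obtain ⟨K₂, N₂, A₂, V₂, hK₂, hV₂, HB⟩ := hB al hal K₀ hK₀ del hdel S₀ hS₀
  have l1 : K₁ ≤ max K₁ K₂ := le_max_left _ _
  have l2 : K₂ ≤ max K₁ K₂ := le_max_right _ _
  refine ⟨max K₁ K₂, N₁ + N₂, lapp N₁ A₁ A₂, lapp N₁ V₁ V₂, hK₁.trans l1, fun k hk => ?_,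
    fun S₂ hS₂ a => ?_⟩
  · rcases lt_or_ge k N₁ with h1 | h1
    · rw [lapp_lt h1, lapp_lt h1]
      obtain ⟨a1, a2, a3⟩ := hV₁ k h1
      exact ⟨by linarith, a2, by linarith⟩
    · obtain ⟨j, rfl⟩ := Nat.exists_eq_add_of_le h1
      rw [lapp_add, lapp_add]
      obtain ⟨a1, a2, a3⟩ := hV₂ j (by omega)
      exact ⟨by linarith, a2, by linarith⟩
  obtain ⟨b, K₁', N₁', V₁', hKK₁, hV₁', ε₁, hε₁, HA⟩ := HA S₂ hS₂ a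
  obtain ⟨_, K₂', N₂', V₂', hKK₂, hV₂', ε₂, hε₂, HB⟩ := HB S₂ hS₂ (a, b)
  have l3 : K₁' ≤ max K₁' K₂' := le_max_left _ _
  have l4 : K₂' ≤ max K₁' K₂' := le_max_right _ _
  refine ⟨(), max K₁' K₂', N₁' + N₂', lapp N₁' V₁' V₂', max_le_max hKK₁ hKK₂, fun k hk => ?_,
    min ε₁ ε₂, lt_min hε₁ hε₂, fun S g₀ P θ P₂ θ₂ Eb e₂ c Pt r L T G g hG hg hd hW => ?_⟩
  · rcases lt_or_ge k N₁' with h1 | h1
    · rw [lapp_lt h1]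
      obtain ⟨a1, a2⟩ := hV₁' k h1
      exact ⟨by linarith, by linarith⟩
    · obtain ⟨j, rfl⟩ := Nat.exists_eq_add_of_le h1
      rw [lapp_add]
      obtain ⟨a1, a2⟩ := hV₂' j (by omega)
      exact ⟨by linarith, by linarith⟩
  rcases hZ a b S P θ c Pt r L T G g hW with h1 | h1
  · obtain ⟨p, M, B₀, B₁, hB, H⟩ := HA S g₀ P θ P₂ θ₂ Eb e₂ c Pt r L T G g hG hg hd h1
    refine ⟨p, M, B₀, B₁, hB, fun k₀ hk₀ => ?_⟩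
    obtain ⟨q₁, hq₁, H⟩ := H k₀ hk₀
    refine ⟨q₁, hq₁, fun q t x hq hx R => H q t x hq hx (R.mono l3 (min_le_left _ _)
      (fun k hk => ⟨k, by omega, (lapp_lt hk).symm, (lapp_lt hk).symm⟩)
      fun k hk => ⟨k, by omega, (lapp_lt hk).symm⟩)⟩
  · obtain ⟨p, M, B₀, B₁, hB, H⟩ := HB S g₀ P θ P₂ θ₂ Eb e₂ c Pt r L T G g hG hg hd h1
    refine ⟨p, M, B₀, B₁, hB, fun k₀ hk₀ => ?_⟩
    obtain ⟨q₁, hq₁, H⟩ := H k₀ hk₀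
    refine ⟨q₁, hq₁, fun q t x hq hx R => H q t x hq hx (R.mono l4 (min_le_right _ _)
      (fun k hk => ⟨N₁ + k, by omega, (lapp_add k).symm, (lapp_add k).symm⟩)
      fun k hk => ⟨N₁' + k, by omega, (lapp_add k).symm⟩)⟩

end Pool.PKG
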