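import Pool.Agent.H80.DIC.Tree

/-!
# Cases at a window by the rate of the last coordinate alone

`FulA`: all the rates are the full one. `LowR`: one admissible family has a rate `φ ≤ β'`, to every
accuracy; `LowE`: to one accuracy. `CasW.rt`, `CasV.rt`: the two cases.
-/

set_option autoImplicit false

namespace Pool.ALT

open Finset Real
open Pool.Agent.H49.Ent Pool.Agent.H32.Dense Pool.STK Pool.KA Pool.KSAT Pool.K2S Pool.PB Pool.S6C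
  Pool.GEN Pool.RCD Pool.LA91 Pool.OWN68 Pool.PKG Pool.CHT Pool.GRW

/-- **Full rates**: for every slack and every complexity. -/
def FulA {n : ℕ} (Adm : AltJ → PropW n) (β : ℝ) : PropW n :=
  fun S P θ c Pt r L T κ G g => ∀ (δ : ℝ) (D : ℕ), 0 < δ → FulR Adm β δ D S P θ c Pt r L T κ G g

/-- **A family of small rate**: the numbers of one admissible family of complexity at most `D` are
linear with a rate at most `β'`, to every accuracy. -/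
def LowR {n : ℕ} (Adm : AltJ → PropW n) (β' : ℝ) (D : ℕ) : PropW n :=
  fun S P θ c Pt r L T κ G g => ∃ i : AltJ, Adm i S P θ c Pt r L T κ G g ∧ i.1.2.2 ≤ D ∧
    ∀ e : ℝ, 0 < e → ∃ (φ : ℝ) (k₁ : ℕ), 0 ≤ φ ∧ φ ≤ β' ∧ RtAt i S c L g φ e k₁

/-- The same to the accuracy `e`. -/
def LowE {n : ℕ} (Adm : AltJ → PropW n) (β' : ℝ) (D : ℕ) (e : PosR) : PropW n :=
  fun S P θ c Pt r L T κ G g => ∃ i : AltJ, Adm i S P θ c Pt r L T κ G g ∧ i.1.2.2 ≤ D ∧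
    ∃ (φ : ℝ) (k₁ : ℕ), 0 ≤ φ ∧ φ ≤ β' ∧ RtAt i S c L g φ e k₁

variable {ι : Type} {n : ℕ} {I : Set ℕ} {h : ℝ} {Sl : ℕ → ℝ} {κ : ℕ → Kg} {Q : PropG n ι}
  {W : PropW n} {Adm : AltJ → PropW n} {β : ℝ}

theorem LowR.e {β' : ℝ} {D : ℕ} {S : PCl n} {P : List (Fin n) × Fin n → ℝ → ℝ → ℝ} {θ : ℝ}
    {c : ℕ → Fin n} {Pt : ℝ → ℝ → ℝ} {r : ℝ → ℝ} {L T : ℕ → ℝ → ℝ → ℝ} {G : Set ℝ} {g : ℝ}
    (H : LowR Adm β' D S P θ c Pt r L T κ G g) (e : PosR) :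
    LowE Adm β' D e S P θ c Pt r L T κ G g := by
  obtain ⟨i, h1, h2, H⟩ := H
  exact ⟨i, h1, h2, H e e.2⟩

/-- **Without full rate there is a family of small rate.** -/
theorem low_of_not {δ : ℝ} {D : ℕ} (hδ : 0 < δ) {S : PCl n}
    {P : List (Fin n) × Fin n → ℝ → ℝ → ℝ} {θ : ℝ} {c : ℕ → Fin n} {Pt : ℝ → ℝ → ℝ}
    {r : ℝ → ℝ} {L T : ℕ → ℝ → ℝ → ℝ} {G : Set ℝ} {g : ℝ} (hg : GdW n Sl S L G g)
    (hq : AllQ (AltQ : PropG n AltI) S P θ c Pt r L T κ G g)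
    (hn : ¬ FulR Adm β δ D S P θ c Pt r L T κ G g) :
    LowR Adm (β - δ / 2) D S P θ c Pt r L T κ G g := by
  classical
  obtain ⟨j, hj, hjD, φ₀, e₀, k₀, he₀, hrt, hlt⟩ : ∃ j : AltJ, Adm j S P θ c Pt r L T κ G g ∧
      j.1.2.2 ≤ D ∧ ∃ (φ e : ℝ) (k₀ : ℕ), 0 < e ∧ RtAt j S c L g φ e k₀ ∧ φ + e < β - δ := by
    by_contra hcon
    refine hn fun j hj hjD φ e k₀ he hrt => ?_
    by_contra h1
    push Not at h1
    exact hcon ⟨j, hj, hjD, φ, e, k₀, he, hrt, h1⟩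
  refine ⟨j, hj, hjD, fun e he => ?_⟩
  obtain ⟨e', he'0, he'1⟩ := exists_rat_btwn (show 0 < min e (δ / 2) from lt_min he (by linarith))
  have he'2 := he'1.trans_le (min_le_left _ _)
  have he'3 := he'1.trans_le (min_le_right _ _)
  obtain ⟨k₁, hAlt⟩ := hq (j.1, (j.2, e'))
  obtain ⟨w₀, hw0, hwg, hE⟩ := alt_has (hrt k₀ le_rfl) hg.g0
  obtain ⟨φ, hφ, hr⟩ := hAlt.rate (by exact_mod_cast he'0) S hg.ne (fun _ _ _ _ h => h) w₀ hw0
    hwg hE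
  have hclose := alt_close hg.ne (hrt (max k₀ k₁) (le_max_left _ _))
    (hr (max k₀ k₁) (le_max_right _ _))
  have h2 := (abs_le.1 hclose).1
  refine ⟨φ, k₁, hφ, ?_, fun k hk => (hr k hk).err he'2.le⟩
  have e1 : ((j.1, (j.2, e')) : AltI).2.2 = e' := rfl
  rw [e1] at h2
  linarith

/-- **Two cases**: full rates, or a family of small rate. -/
theorem _root_.Pool.PKG.CasW.rt (Adm : AltJ → PropW n) (β : ℝ)
    (hQ : ∀ S P θ c Pt r L T G g, AllQ Q S P θ c Pt r L T κ G g →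
      AllQ (AltQ : PropG n AltI) S P θ c Pt r L T κ G g)
    (hA : CasW n I h Sl κ Q (AndW W (FulA Adm β)))
    (hB : ∀ β' : ℝ, β' < β → ∀ D : ℕ, CasW n I h Sl κ Q (AndW W (LowR Adm β' D))) :
    CasW n I h Sl κ Q W := by
  classical
  intro S P θ c Pt r L T G g hg hq hW
  by_cases hA' : FulA Adm β S P θ c Pt r L T κ G g
  · exact hA S P θ c Pt r L T G g hg hq ⟨hW, hA'⟩
  · obtain ⟨δ, D, hδ, hn⟩ : ∃ (δ : ℝ) (D : ℕ), 0 < δ ∧ ¬ FulR Adm β δ D S P θ c Pt r L T κ G g := by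
      by_contra hcon
      refine hA' fun δ D hδ => ?_
      by_contra h1
      exact hcon ⟨δ, D, hδ, h1⟩
    exact hB (β - δ / 2) (by linarith) D S P θ c Pt r L T G g hg hq
      ⟨hW, low_of_not hδ hg (hQ S P θ c Pt r L T G g hq) hn⟩

/-- **Two cases of void windows**. -/
theorem _root_.Pool.PKG.CasV.rt (Adm : AltJ → PropW n) (β : ℝ)
    (hQ : ∀ S P θ c Pt r L T G g, AllQ Q S P θ c Pt r L T κ G g →
      AllQ (AltQ : PropG n AltI) S P θ c Pt r L T κ G g)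
    (hA : CasV n h Sl κ Q (AndW W (FulA Adm β)))
    (hB : ∀ β' : ℝ, β' < β → ∀ D : ℕ, CasV n h Sl κ Q (AndW W (LowR Adm β' D))) :
    CasV n h Sl κ Q W := by
  classical
  intro S P θ c Pt r L T G g hg hq hW
  by_cases hA' : FulA Adm β S P θ c Pt r L T κ G g
  · exact hA S P θ c Pt r L T G g hg hq ⟨hW, hA'⟩
  · obtain ⟨δ, D, hδ, hn⟩ : ∃ (δ : ℝ) (D : ℕ), 0 < δ ∧ ¬ FulR Adm β δ D S P θ c Pt r L T κ G g := by
      by_contra hcon
      refine hA' fun δ D hδ => ?_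
      by_contra h1
      exact hcon ⟨δ, D, hδ, h1⟩
    exact hB (β - δ / 2) (by linarith) D S P θ c Pt r L T G g hg hq
      ⟨hW, low_of_not hδ hg (hQ S P θ c Pt r L T G g hq) hn⟩

/-- **The class theorem under full rates** of some slack and complexity (`CelR`), as a case. -/
theorem _root_.Pool.PKG.CasW.ful {i : ℕ} (hi : i ∈ I)
    (H : CelZ n i h Sl κ Q (fun b : PosR × ℕ => AndW W (FulR Adm β b.1 b.2))) :
    CasW n I h Sl κ Q (AndW W (FulA Adm β)) :=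
  CasW.leaf hi H fun _ _ _ _ _ _ _ _ _ _ _ _ hW b => ⟨hW.1, hW.2 _ _ b.1.2⟩

/-- **The class theorem under a small rate** to some accuracy, as a case. -/
theorem _root_.Pool.PKG.CasW.low {i : ℕ} {β' : ℝ} {D : ℕ} (hi : i ∈ I)
    (H : CelZ n i h Sl κ Q (fun e : PosR => AndW W (LowE Adm β' D e))) :
    CasW n I h Sl κ Q (AndW W (LowR Adm β' D)) :=
  CasW.leaf hi H fun _ _ _ _ _ _ _ _ _ _ _ _ hW e => ⟨hW.1, hW.2.e e⟩

theorem _root_.Pool.PKG.CasV.low {β' : ℝ} {D : ℕ}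
    (H : VoidZ n h Sl κ Q (fun e : PosR => AndW W (LowE Adm β' D e))) :
    CasV n h Sl κ Q (AndW W (LowR Adm β' D)) :=
  CasV.leaf H fun _ _ _ _ _ _ _ _ _ _ _ _ hW e => ⟨hW.1, hW.2.e e⟩

end Pool.ALT
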